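import Pool.Agent.helper90.LG.GKum

/-!
Systems of `p`-th roots of sums and of products of tame functions on independent curves.
-/

namespace LP

open LU LG

universe u

/-- germs of `n` curves, additive rows `JA` and multiplicative rows `JB` -/
structure RDat {k K : Type u} [Field k] [Field K] [Algebra k K] (V : ValuationSubring K) (p n : ℕ)
    (JA JB H : Type) [Fintype JA] [DecidableEq JA] [Fintype JB] [DecidableEq JB] [Fintype H] where
  u : Fin n → K
  w : Fin n → K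
  Φ : Fin n → MvPolynomial (Fin 2) k
  m : Fin n → ℤ
  gi : H → Fin n
  N : H → MvPolynomial (Fin 2) k
  D : H → MvPolynomial (Fin 2) k
  η : JA ⊕ JB → K
  a : JA → Fin n → k
  gA : JA → Fin n → H → ℕ
  πA : JA → Fin n
  f : JB → Fin n → ℤ
  gB : JB → H → ℕ
  πB : JB → Fin n
  hu0 : ∀ i, u i ≠ 0
  huV : ∀ i, u i ∈ V
  hwV : ∀ i, w i ∈ V
  hΦ : ∀ i, MvPolynomial.aeval ![u i, w i] (Φ i) = 0
  hΦ0 : ∀ i, MvPolynomial.aeval ![u i, w i] (MvPolynomial.pderiv 1 (Φ i)) ≠ 0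
  hΦV : ∀ i, (MvPolynomial.aeval ![u i, w i] (MvPolynomial.pderiv 1 (Φ i)))⁻¹ ∈ V
  hD0 : ∀ h, MvPolynomial.aeval ![u (gi h), w (gi h)] (D h) ≠ 0
  hDV : ∀ h, (MvPolynomial.aeval ![u (gi h), w (gi h)] (D h))⁻¹ ∈ V
  hη : ∀ j, η j ≠ 0
  hm : ∀ i, (m i : k) ≠ 0
  relA : ∀ j, η (Sum.inl j) ^ p = ∑ i, algebraMap k K (a j i) * (u i ^ m i *
    ∏ h, (MvPolynomial.aeval ![u (gi h), w (gi h)] (N h) /
      MvPolynomial.aeval ![u (gi h), w (gi h)] (D h)) ^ gA j i h)
  relB : ∀ j, η (Sum.inr j) ^ p = mon u (f j) *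
    ∏ h, (MvPolynomial.aeval ![u (gi h), w (gi h)] (N h) /
      MvPolynomial.aeval ![u (gi h), w (gi h)] (D h)) ^ gB j h
  hUA : ∀ j, ∏ h, (MvPolynomial.aeval ![u (gi h), w (gi h)] (N h) /
      MvPolynomial.aeval ![u (gi h), w (gi h)] (D h)) ^ gA j (πA j) h ≠ 0 ∧
    (∏ h, (MvPolynomial.aeval ![u (gi h), w (gi h)] (N h) /
      MvPolynomial.aeval ![u (gi h), w (gi h)] (D h)) ^ gA j (πA j) h)⁻¹ ∈ V
  hUB : ∀ j, (∏ h, (MvPolynomial.aeval ![u (gi h), w (gi h)] (N h) /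
      MvPolynomial.aeval ![u (gi h), w (gi h)] (D h)) ^ gB j h)⁻¹ ∈ V
  ha1 : ∀ j, a j (πA j) ≠ 0
  ha2 : ∀ j j', j' ≠ j → a j' (πA j) = 0
  ha3 : ∀ j i, a j i ≠ 0 → V.valuation (u i ^ m i) ≤ V.valuation (u (πA j) ^ m (πA j))
  hb1 : ∀ j, (f j (πB j) : k) ≠ 0
  hb2 : ∀ j j', j' ≠ j → (f j' (πB j) : k) = 0
  hab : ∀ (j : JA) (j' : JB), (f j' (πA j) : k) = 0 ∧ a j (πB j') = 0
  hdir : ∀ h, (u (gi h))⁻¹ ∉ V ∨ (N h = 1 ∧ D h = 1)

namespace RDat

variable {k K : Type u} [Field k] [Field K] [Algebra k K] {V : ValuationSubring K} {p n : ℕ}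
    {JA JB H : Type} [Fintype JA] [DecidableEq JA] [Fintype JB] [DecidableEq JB] [Fintype H]
    (r : RDat (k := k) V p n JA JB H)

noncomputable def sg (l : JA ⊕ JB) : ℤ := by
  classical exact if r.η l ∈ V then 1 else -1

lemma sg_sq (l) : r.sg l * r.sg l = 1 := by
  unfold sg
  split_ifs <;> rfl

/-- frame elements -/
noncomputable def zf (l : JA ⊕ JB) : K := r.η l ^ r.sg l

lemma zf_ne (l) : r.zf l ≠ 0 := zpow_ne_zero _ (r.hη l)

lemma zf_mem (l) : r.zf l ∈ V := by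
  unfold zf sg
  split_ifs with h
  · simpa using h
  · rw [zpow_neg, zpow_one]
    exact (V.mem_or_inv_mem _).resolve_left h

lemma zf_pow (l) : r.zf l ^ r.sg l = r.η l := by
  rw [zf, ← zpow_mul, sg_sq, zpow_one]

/-- product of germ factors -/
noncomputable def U (o : H → ℕ) : K := ∏ h, (MvPolynomial.aeval ![r.u (r.gi h), r.w (r.gi h)] (r.N h) /
      MvPolynomial.aeval ![r.u (r.gi h), r.w (r.gi h)] (r.D h)) ^ o h

/-- coefficients -/
def ra : JA ⊕ JB → Option (Fin n) → k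
  | Sum.inl _, none => 1
  | Sum.inl j, some i => - r.a j i
  | Sum.inr _, none => -1
  | Sum.inr j, some i => if i = r.πB j then 1 else 0

/-- exponents -/
noncomputable def re : JA ⊕ JB → Option (Fin n) → (Fin n ⊕ (JA ⊕ JB) → ℤ)
  | Sum.inl j, none => Pi.single (Sum.inr (Sum.inl j)) (p * r.sg (Sum.inl j)) +
      Pi.single (Sum.inl (r.πA j)) (- r.m (r.πA j))
  | Sum.inl j, some i => Pi.single (Sum.inl i) (r.m i) +
      Pi.single (Sum.inl (r.πA j)) (- r.m (r.πA j))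
  | Sum.inr _, none => 0
  | Sum.inr j, some _ => Sum.elim (r.f j) (Pi.single (Sum.inr j) (-(p * r.sg (Sum.inr j))))

def rg : JA ⊕ JB → Option (Fin n) → H → ℕ
  | Sum.inl _, none => 0
  | Sum.inl j, some i => r.gA j i
  | Sum.inr _, none => 0
  | Sum.inr j, some _ => r.gB j

def rs : JA ⊕ JB → Fin n ⊕ (JA ⊕ JB)
  | Sum.inl j => Sum.inl (r.πA j)
  | Sum.inr j => Sum.inl (r.πB j)

section gen

variable {E : Type*} [Field E] (κ : k →+* E) {F : Fin n ⊕ (JA ⊕ JB) → E} (hF : ∀ y, F y ≠ 0)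
  (G : (H → ℕ) → E) (hG : G 0 = 1)

include hF

lemma mon_re_none (j : JA) : mon F (r.re (Sum.inl j) none) =
    (F (Sum.inr (Sum.inl j)) ^ r.sg (Sum.inl j)) ^ p * (F (Sum.inl (r.πA j)) ^ r.m (r.πA j))⁻¹ := by
  simp only [re]
  rw [mon_add hF, mon_single, mon_single, zpow_neg, mul_comm (p : ℤ), zpow_mul, zpow_natCast]

lemma mon_re_some (j : JA) (i : Fin n) : mon F (r.re (Sum.inl j) (some i)) =
    F (Sum.inl i) ^ r.m i * (F (Sum.inl (r.πA j)) ^ r.m (r.πA j))⁻¹ := by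
  simp only [re]
  rw [mon_add hF, mon_single, mon_single, zpow_neg]

omit hF in
lemma mon_re_inr (j : JB) (i : Fin n) : mon F (r.re (Sum.inr j) (some i)) =
    mon (fun i => F (Sum.inl i)) (r.f j) *
      ((F (Sum.inr (Sum.inr j)) ^ r.sg (Sum.inr j)) ^ p)⁻¹ := by
  simp only [re]
  have : mon F (Sum.elim (r.f j) (Pi.single (Sum.inr j) (-(p * r.sg (Sum.inr j))))) =
      mon (fun i => F (Sum.inl i)) (r.f j) * mon (fun l => F (Sum.inr l))
        (Pi.single (Sum.inr j) (-(p * r.sg (Sum.inr j)))) := by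
    unfold mon
    rw [Fintype.prod_sum_type]
    simp only [Sum.elim_inl, Sum.elim_inr]
  rw [this, mon_single, zpow_neg, mul_comm (p : ℤ), zpow_mul, zpow_natCast]

include hG in
/-- value of an additive row -/
lemma rowA (j : JA) : ∑ t, κ (r.ra (Sum.inl j) t) * (mon F (r.re (Sum.inl j) t) *
      G (r.rg (Sum.inl j) t)) = (F (Sum.inl (r.πA j)) ^ r.m (r.πA j))⁻¹ *
    ((F (Sum.inr (Sum.inl j)) ^ r.sg (Sum.inl j)) ^ p -
      ∑ i, κ (r.a j i) * (F (Sum.inl i) ^ r.m i * G (r.gA j i))) := by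
  rw [Fintype.sum_option, r.mon_re_none hF]
  simp only [r.mon_re_some hF, ra, rg, hG, map_one, one_mul, mul_one, map_neg]
  rw [mul_sub, Finset.mul_sum, sub_eq_add_neg, ← Finset.sum_neg_distrib]
  congr 1
  · ring
  · refine Finset.sum_congr rfl fun i _ => ?_
    ring

omit hF in
include hG in
/-- value of a multiplicative row -/
lemma rowB (j : JB) : ∑ t, κ (r.ra (Sum.inr j) t) * (mon F (r.re (Sum.inr j) t) *
      G (r.rg (Sum.inr j) t)) = mon (fun i => F (Sum.inl i)) (r.f j) *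
      ((F (Sum.inr (Sum.inr j)) ^ r.sg (Sum.inr j)) ^ p)⁻¹ * G (r.gB j) - 1 := by
  rw [Fintype.sum_option]
  simp only [r.mon_re_inr, ra, rg, hG, map_neg, map_one]
  rw [Finset.sum_eq_single (r.πB j)]
  · have h1 : mon F (r.re (Sum.inr j) none) = 1 := by simp [re, mon]
    rw [h1, if_pos rfl, map_one]
    ring
  · intro b _ hb
    rw [if_neg hb, map_zero, zero_mul]
  · simp

end gen

section toG

/-- the frame -/
noncomputable def fr : Fin n ⊕ (JA ⊕ JB) → K := Sum.elim r.u r.zf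

lemma fr_ne (y) : r.fr y ≠ 0 := by
  rcases y with i | l
  · exact r.hu0 i
  · exact r.zf_ne l

lemma U_zero : r.U 0 = 1 := by simp [U]

lemma sum_rowA (j : JA) : ∑ t, algebraMap k K (r.ra (Sum.inl j) t) *
    (mon r.fr (r.re (Sum.inl j) t) * r.U (r.rg (Sum.inl j) t)) = 0 := by
  rw [r.rowA (algebraMap k K) r.fr_ne r.U r.U_zero j]
  have h1 : r.fr (Sum.inr (Sum.inl j)) = r.zf (Sum.inl j) := rfl
  rw [h1, r.zf_pow, r.relA j]
  have : ∀ i, r.fr (Sum.inl i) = r.u i := fun i => rfl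
  simp only [this]
  rw [show (∑ i, algebraMap k K (r.a j i) * (r.u i ^ r.m i *
    ∏ h, (MvPolynomial.aeval ![r.u (r.gi h), r.w (r.gi h)] (r.N h) /
      MvPolynomial.aeval ![r.u (r.gi h), r.w (r.gi h)] (r.D h)) ^ r.gA j i h)) -
      ∑ i, algebraMap k K (r.a j i) * (r.u i ^ r.m i * r.U (r.gA j i)) = 0 from sub_self _, mul_zero]

lemma monB (j : JB) : mon (fun i => r.fr (Sum.inl i)) (r.f j) *
      ((r.fr (Sum.inr (Sum.inr j)) ^ r.sg (Sum.inr j)) ^ p)⁻¹ * r.U (r.gB j) = 1 := by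
  have h1 : r.fr (Sum.inr (Sum.inr j)) = r.zf (Sum.inr j) := rfl
  have h2 : r.η (Sum.inr j) ^ p ≠ 0 := pow_ne_zero _ (r.hη _)
  have h3 := r.relB j
  rw [h1, r.zf_pow, mul_right_comm]
  have h4 : mon (fun i => r.fr (Sum.inl i)) (r.f j) * r.U (r.gB j) = r.η (Sum.inr j) ^ p := h3.symm
  rw [h4, mul_inv_cancel₀ h2]

lemma sum_rowB (j : JB) : ∑ t, algebraMap k K (r.ra (Sum.inr j) t) *
    (mon r.fr (r.re (Sum.inr j) t) * r.U (r.rg (Sum.inr j) t)) = 0 := by
  rw [r.rowB (algebraMap k K) (F := r.fr) r.U r.U_zero j, r.monB j, sub_self]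

/-- weighted sums of an additive row -/
lemma wA [CharP K p] (j : JA) (i0 : Fin n) :
    ∑ t, (r.re (Sum.inl j) t (Sum.inl i0) : K) * (algebraMap k K (r.ra (Sum.inl j) t) *
    (mon r.fr (r.re (Sum.inl j) t) * r.U (r.rg (Sum.inl j) t))) =
    (r.m i0 : K) * (algebraMap k K (- r.a j i0) * (mon r.fr (r.re (Sum.inl j) (some i0)) *
      r.U (r.gA j i0))) := by
  have h0 := r.sum_rowA j
  set T : Option (Fin n) → K := fun t => algebraMap k K (r.ra (Sum.inl j) t) *
    (mon r.fr (r.re (Sum.inl j) t) * r.U (r.rg (Sum.inl j) t)) with hT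
  change ∑ t, T t = 0 at h0
  change ∑ t, (r.re (Sum.inl j) t (Sum.inl i0) : K) * T t = (r.m i0 : K) * T (some i0)
  set c : K := if i0 = r.πA j then (r.m (r.πA j) : K) else 0 with hc
  have h1 : ∀ t, (r.re (Sum.inl j) t (Sum.inl i0) : K) * T t =
      (if t = some i0 then (r.m i0 : K) * T t else 0) - c * T t := by
    intro t
    have e1 : ((Pi.single (Sum.inl (r.πA j)) (- r.m (r.πA j)) : Fin n ⊕ (JA ⊕ JB) → ℤ)
        (Sum.inl i0) : K) = - c := by
      rw [Pi.single_apply, hc]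
      by_cases h : i0 = r.πA j
      · rw [if_pos (by rw [h]), if_pos h]
        push_cast; ring
      · rw [if_neg (by simpa using h), if_neg h]
        simp
    rcases t with _ | i
    · have e2 : ((Pi.single (Sum.inr (Sum.inl j)) (p * r.sg (Sum.inl j)) :
          Fin n ⊕ (JA ⊕ JB) → ℤ) (Sum.inl i0) : ℤ) = 0 := Pi.single_eq_of_ne (by simp) _
      simp only [re, Pi.add_apply]
      push_cast
      rw [e2, e1]
      simp
    · have e3 : ((Pi.single (Sum.inl i) (r.m i) : Fin n ⊕ (JA ⊕ JB) → ℤ) (Sum.inl i0) : K) =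
          if some i = some i0 then (r.m i0 : K) else 0 := by
        rw [Pi.single_apply]
        by_cases h : i = i0
        · subst h; simp
        · rw [if_neg (by simpa using Ne.symm h), if_neg (by simpa using h)]
          simp
      simp only [re, Pi.add_apply]
      push_cast
      rw [e3, e1]
      split_ifs <;> ring
  simp only [h1]
  rw [Finset.sum_sub_distrib, ← Finset.mul_sum, h0, mul_zero, sub_zero]
  simp

/-- weighted sums of a multiplicative row -/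
lemma wB (j : JB) (i0 : Fin n) :
    ∑ t, (r.re (Sum.inr j) t (Sum.inl i0) : K) * (algebraMap k K (r.ra (Sum.inr j) t) *
    (mon r.fr (r.re (Sum.inr j) t) * r.U (r.rg (Sum.inr j) t))) = (r.f j i0 : K) := by
  rw [Fintype.sum_option]
  have h1 : r.re (Sum.inr j) none (Sum.inl i0) = 0 := rfl
  rw [h1, Int.cast_zero, zero_mul, zero_add, Finset.sum_eq_single (r.πB j)]
  · rw [r.mon_re_inr]
    have h2 := r.monB j
    simp only [ra, rg, if_pos, map_one, one_mul]
    rw [h2, mul_one]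
    rfl
  · intro b _ hb
    simp only [ra]
    rw [if_neg hb, map_zero, zero_mul, mul_zero]
  · simp

variable (hV : ∀ c : k, algebraMap k K c ∈ V)

include hV in
lemma ev_mem (i : Fin n) (q : MvPolynomial (Fin 2) k) :
    MvPolynomial.aeval ![r.u i, r.w i] q ∈ V := by
  apply aeval_mem hV
  intro x
  fin_cases x
  · exact r.huV i
  · exact r.hwV i

include hV in
lemma U_mem (o : H → ℕ) : r.U o ∈ V := by
  refine prod_mem fun h _ => pow_mem ?_ _
  rw [div_eq_mul_inv]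
  exact mul_mem (r.ev_mem hV _ _) (r.hDV h)

lemma mul_inv_mem' {x y : K} (hy : y ≠ 0) (h : V.valuation x ≤ V.valuation y) : x * y⁻¹ ∈ V := by
  rw [← V.valuation_le_one_iff, map_mul, map_inv₀]
  have : V.valuation y ≠ 0 := by simpa using hy
  rw [← div_eq_mul_inv]
  exact div_le_one_of_le₀ h zero_le

include hV in
/-- the leading value of an additive row -/
lemma val_eta (j : JA) : V.valuation (r.η (Sum.inl j) ^ p) ≤
    V.valuation (r.u (r.πA j) ^ r.m (r.πA j)) := by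
  rw [r.relA j]
  apply Valuation.map_sum_le
  intro i _
  by_cases hi : r.a j i = 0
  · rw [hi, map_zero, zero_mul, map_zero]
    exact zero_le
  · rw [map_mul, map_mul]
    have h1 : V.valuation (algebraMap k K (r.a j i)) ≤ 1 := (V.valuation_le_one_iff _).2 (hV _)
    have h2 : V.valuation (∏ h, (MvPolynomial.aeval ![r.u (r.gi h), r.w (r.gi h)] (r.N h) /
      MvPolynomial.aeval ![r.u (r.gi h), r.w (r.gi h)] (r.D h)) ^ r.gA j i h) ≤ 1 :=
      (V.valuation_le_one_iff _).2 (r.U_mem hV (r.gA j i))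
    calc _ ≤ 1 * (V.valuation (r.u i ^ r.m i) * 1) := by gcongr
      _ = V.valuation (r.u i ^ r.m i) := by rw [one_mul, mul_one]
      _ ≤ _ := r.ha3 j i hi

/-- the general system -/
noncomputable def toG [CharP K p] : GDat (k := k) V (Fin n) (JA ⊕ JB) (JA ⊕ JB) (Option (Fin n)) H where
  u := r.u
  w := r.w
  x := r.zf
  Φ := r.Φ
  gi := r.gi
  N := r.N
  D := r.D
  a := r.ra
  e := r.re
  g := r.rg
  s := r.rs
  rk := fun _ => 0
  hu0 := r.hu0
  huV := r.huV
  hwV := r.hwV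
  hx0 := r.zf_ne
  hxV := r.zf_mem
  hΦ := r.hΦ
  hΦ0 := r.hΦ0
  hΦV := r.hΦV
  hD0 := r.hD0
  hDV := r.hDV
  hmon := by
    change ∀ j t, r.ra j t ≠ 0 → mon r.fr (r.re j t) ∈ V
    rintro (j | j) (_ | i) ha
    · rw [r.mon_re_none r.fr_ne]
      have h1 : r.fr (Sum.inr (Sum.inl j)) = r.zf (Sum.inl j) := rfl
      rw [h1, r.zf_pow]
      exact mul_inv_mem' (zpow_ne_zero _ (r.hu0 _)) (r.val_eta hV j)
    · rw [r.mon_re_some r.fr_ne]
      have ha' : r.a j i ≠ 0 := by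
        intro h
        apply ha
        simp [ra, h]
      exact mul_inv_mem' (zpow_ne_zero _ (r.hu0 _)) (r.ha3 j i ha')
    · simp [re, mon, one_mem]
    · rw [r.mon_re_inr]
      have h1 := r.monB j
      have h2 := r.hUB j
      have h3 : mon (fun i => r.fr (Sum.inl i)) (r.f j) *
        ((r.fr (Sum.inr (Sum.inr j)) ^ r.sg (Sum.inr j)) ^ p)⁻¹ = (r.U (r.gB j))⁻¹ :=
        eq_inv_of_mul_eq_one_left h1
      rw [h3]
      exact h2
  hrow := by
    rintro (j | j)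
    · exact r.sum_rowA j
    · exact r.sum_rowB j
  hd1 := by
    rintro (j | j)
    · have h := r.wA j (r.πA j)
      change (∑ t, (r.re (Sum.inl j) t (Sum.inl (r.πA j)) : K) *
        (algebraMap k K (r.ra (Sum.inl j) t) *
        (mon r.fr (r.re (Sum.inl j) t) * r.U (r.rg (Sum.inl j) t))) ≠ 0) ∧
        (∑ t, (r.re (Sum.inl j) t (Sum.inl (r.πA j)) : K) *
        (algebraMap k K (r.ra (Sum.inl j) t) *
        (mon r.fr (r.re (Sum.inl j) t) * r.U (r.rg (Sum.inl j) t))))⁻¹ ∈ V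
      rw [h, r.mon_re_some r.fr_ne, mul_inv_cancel₀ (zpow_ne_zero _ (r.fr_ne _)), one_mul]
      have hm : (r.m (r.πA j) : K) = algebraMap k K (r.m (r.πA j)) := by simp
      rw [hm]
      have hm0 : algebraMap k K (r.m (r.πA j) : k) ≠ 0 := (map_ne_zero (algebraMap k K)).2 (r.hm _)
      have ha0 : algebraMap k K (- r.a j (r.πA j)) ≠ 0 :=
        (map_ne_zero (algebraMap k K)).2 (neg_ne_zero.2 (r.ha1 j))
      refine ⟨mul_ne_zero hm0 (mul_ne_zero ha0 (r.hUA j).1), ?_⟩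
      rw [mul_inv, mul_inv, ← map_inv₀, ← map_inv₀]
      exact mul_mem (hV _) (mul_mem (hV _) (r.hUA j).2)
    · have h := r.wB j (r.πB j)
      change (∑ t, (r.re (Sum.inr j) t (Sum.inl (r.πB j)) : K) *
        (algebraMap k K (r.ra (Sum.inr j) t) *
        (mon r.fr (r.re (Sum.inr j) t) * r.U (r.rg (Sum.inr j) t))) ≠ 0) ∧
        (∑ t, (r.re (Sum.inr j) t (Sum.inl (r.πB j)) : K) *
        (algebraMap k K (r.ra (Sum.inr j) t) *
        (mon r.fr (r.re (Sum.inr j) t) * r.U (r.rg (Sum.inr j) t))))⁻¹ ∈ V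
      rw [h]
      have hm : (r.f j (r.πB j) : K) = algebraMap k K (r.f j (r.πB j)) := by simp
      rw [hm]
      refine ⟨(map_ne_zero (algebraMap k K)).2 (r.hb1 j), ?_⟩
      rw [← map_inv₀]
      exact hV _
  hd0 := by
    rintro (j | j) (j' | j') hne -
    · refine (r.wA j' (r.πA j)).trans ?_
      rw [r.ha2 j j' (by rintro rfl; exact hne rfl)]
      simp
    · refine (r.wB j' (r.πA j)).trans ?_
      have := congrArg (algebraMap k K) (r.hab j j').1
      simpa using this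
    · refine (r.wA j' (r.πB j)).trans ?_
      rw [(r.hab j' j).2]
      simp
    · refine (r.wB j' (r.πB j)).trans ?_
      have := congrArg (algebraMap k K) (r.hb2 j j' (by rintro rfl; exact hne rfl))
      simpa using this
  hdir := fun _ _ _ h _ _ _ _ => r.hdir h

theorem algCond [CharP K p] (hp : 0 < p) : (r.toG hV).AlgCond (id : Fin n → Fin n) := by
  intro S E _ _ C0 ev φ cS wS h1 h2 h3 h4 h5 h6 h7
  have hne : ∀ y, φ (cS y) ≠ 0 := by
    intro y h0
    have := h4 _ h0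
    rw [h2] at this
    exact r.fr_ne y this
  set θ := MvPolynomial.eval₂Hom (φ.comp C0) (fun j => φ (cS (Sum.inl (id j)))) with hθ
  have hX : ∀ i, θ (MvPolynomial.X i) = φ (cS (Sum.inl i)) := fun i => by simp [hθ]
  have hu : ∀ i, AlgOver θ (φ (cS (Sum.inl i))) := by
    intro i
    rw [← hX]
    exact AlgOver.base _
  have hw : ∀ i, AlgOver θ (φ (wS i)) := by
    intro i
    refine AlgOver.of_rel (MvPolynomial.X i)
      (φ.comp (MvPolynomial.eval₂Hom C0 ![cS (Sum.inl i), wS i])) (by intro c; simp [hθ])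
      (by rw [hX]; simp) (by simp) (r.Φ i) (h6 i) ?_
    have hu := h5 i _ (r.hΦ0 i) (r.hΦV i)
    exact (hu.map φ).ne_zero
  refine ⟨?_, hw⟩
  have hq : ∀ h : H, ∀ q : MvPolynomial (Fin 2) k, AlgOver θ
      (φ (MvPolynomial.eval₂ C0 ![cS (Sum.inl (r.gi h)), wS (r.gi h)] q)) := by
    intro h q
    exact (hu (r.gi h)).eval2 (hw (r.gi h))
      (φ.comp (MvPolynomial.eval₂Hom C0 ![cS (Sum.inl (r.gi h)), wS (r.gi h)]))
      (by intro c; simp [hθ]) (by simp) (by simp) q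
  set G : (H → ℕ) → E := fun o => ∏ h, (φ (MvPolynomial.eval₂ C0
    ![cS (Sum.inl (r.gi h)), wS (r.gi h)] (r.N h)) /
      φ (MvPolynomial.eval₂ C0 ![cS (Sum.inl (r.gi h)), wS (r.gi h)] (r.D h))) ^ o h with hG
  have hG0 : G 0 = 1 := by simp [hG]
  have hGa : ∀ o, AlgOver θ (G o) := by
    intro o
    refine AlgOver.prod _ fun h _ => AlgOver.pow ?_ _
    rw [div_eq_mul_inv]
    exact (hq h _).mul (hq h _).inv
  have hc : ∀ c, AlgOver θ ((φ.comp C0) c) := by
    intro c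
    have : θ (MvPolynomial.C c) = (φ.comp C0) c := by simp [hθ]
    rw [← this]
    exact AlgOver.base _
  have hz : ∀ l : JA ⊕ JB, AlgOver θ ((φ (cS (Sum.inr l)) ^ r.sg l) ^ p) →
      AlgOver θ (φ (cS (Sum.inr l))) := by
    intro l hl
    have h8 := KumDat.of_pow hp hl
    have hs : r.sg l = 1 ∨ r.sg l = -1 := by
      unfold sg
      split_ifs
      · exact Or.inl rfl
      · exact Or.inr rfl
    rcases hs with hs | hs
    · rwa [hs, zpow_one] at h8
    · rw [hs, zpow_neg, zpow_one] at h8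
      simpa using h8.inv
  rintro (i | (j | j))
  · exact hu i
  · apply hz
    have h8 := h7 (Sum.inl j)
    have h9 := r.rowA (φ.comp C0) (F := fun y => φ (cS y)) hne G hG0 j
    have h10 := h9.symm.trans h8
    have h11 : (φ (cS (Sum.inl (r.πA j))) ^ r.m (r.πA j))⁻¹ ≠ 0 :=
      inv_ne_zero (zpow_ne_zero _ (hne _))
    rw [sub_eq_zero.1 ((mul_eq_zero.1 h10).resolve_left h11)]
    exact AlgOver.sum _ fun i _ => (hc _).mul (((hu i).zpow _).mul (hGa _))
  · apply hz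
    have h8 := h7 (Sum.inr j)
    have h9 := r.rowB (φ.comp C0) (F := fun y => φ (cS y)) G hG0 j
    have h10 := sub_eq_zero.1 (h9.symm.trans h8)
    have h11 : (φ (cS (Sum.inr (Sum.inr j))) ^ r.sg (Sum.inr j)) ^ p ≠ 0 :=
      pow_ne_zero _ (zpow_ne_zero _ (hne _))
    have h12 : (φ (cS (Sum.inr (Sum.inr j))) ^ r.sg (Sum.inr j)) ^ p =
        mon (fun i => φ (cS (Sum.inl i))) (r.f j) * G (r.gB j) := by
      rw [mul_right_comm, mul_inv_eq_one₀ h11] at h10
      exact h10.symm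
    rw [h12]
    exact (AlgOver.mon hu _).mul (hGa _)

end toG

end RDat

end LP
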