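import Pool.Agent.helper90.LP.LocDec
import Pool.Agent.helper90.LP.RDat

/-!
Local uniformization of fields generated by `p`-th roots of sums of functions on curves.
-/

open Matrix

namespace LP

open LU LT LG

universe u

/-- reduced echelon form adapted to a total preorder on the columns -/
theorem ech_gen {k R C : Type*} [Field k] [Fintype R] [DecidableEq R] [DecidableEq C] [Fintype C]
    (A : Matrix R C k) (le : C → C → Prop)
    (hmax : ∀ T : Finset C, T.Nonempty → ∃ i ∈ T, ∀ i' ∈ T, le i' i) :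
    ∃ (P Q : Matrix R R k) (W : Finset R) (π : {j // j ∈ W} → C), Q * P = 1 ∧
      (∀ j : {j // j ∈ W}, (P * A) j (π j) ≠ 0 ∧ (∀ l, l ≠ (j : R) → (P * A) l (π j) = 0) ∧
        ∀ i, (P * A) j i ≠ 0 → le i (π j)) ∧ ∀ j ∉ W, ∀ i, (P * A) j i = 0 := by
  rcases isEmpty_or_nonempty C with hC | hC
  · exact ⟨1, 1, ∅, fun j => absurd j.2 (Finset.notMem_empty _), by simp,
      fun j => absurd j.2 (Finset.notMem_empty _), fun _ _ i => hC.elim i⟩
  · obtain ⟨P, Q, W, π, h⟩ := ech_aux A le hmax (∅ : Finset C)ᶜ.card ∅ 1 1 ∅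
      (fun _ => Classical.arbitrary C) rfl ⟨by simp, by simp, by simp, by simp⟩
    exact ⟨P, Q, W, fun j => π j, h.inv, fun j => (h.piv j j.2).2,
      fun j hj i => h.zer j hj i (Finset.mem_univ _)⟩

section

variable {k K : Type u} [Field k] [Field K] [Algebra k K]

lemma gen_field {F : IntermediateField k K} {u w : F} {L : IntermediateField k K}
    (hgen : IntermediateField.adjoin k {u, w} = ⊤) (hu : (u : K) ∈ L) (hw : (w : K) ∈ L) : F ≤ L := by
  intro y hy
  have h1 : (⟨y, hy⟩ : F) ∈ IntermediateField.adjoin k {u, w} := by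
    rw [hgen]; trivial
  have h2 : y ∈ (IntermediateField.adjoin k {u, w}).map F.val := ⟨⟨y, hy⟩, h1, rfl⟩
  rw [IntermediateField.adjoin_map] at h2
  have h3 : IntermediateField.adjoin k (F.val '' {u, w}) ≤ L := by
    rw [IntermediateField.adjoin_le_iff]
    rintro _ ⟨q, hq, rfl⟩
    rcases hq with rfl | rfl
    · exact hu
    · exact hw
  exact h3 h2

/-- elements of the curves, algebraically independent over `k` -/
lemma indep_curves {n : ℕ} (F : Fin n → IntermediateField k K)
    (v : ∀ i, F i) (halg : ∀ i, Algebra.IsAlgebraic (IntermediateField.adjoin k {v i}) (F i))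
    {Z : Set K} (hZ : ∀ x ∈ Z, ∃ m : ℕ, 0 < m ∧ x ^ m ∈ ⨆ i, F i)
    (hgen : (⨆ i, F i) ⊔ IntermediateField.adjoin k Z = ⊤) (hn : Algebra.trdeg k K = n) :
    AlgebraicIndependent k (fun i => (v i : K)) := by
  refine indep_of_trdeg _ (algebraic_of_adjoin _ (fun i => (v i : K))
    (fun j => IntermediateField.subset_adjoin _ _ ⟨j, rfl⟩) F v
    (fun j => IntermediateField.subset_adjoin _ _ ⟨j, rfl⟩) halg (Z := Z) ?_ ?_) hn
  · intro x hx
    obtain ⟨m, hm, h⟩ := hZ x hx
    exact ⟨m, hm, (le_sup_right : (⨆ i, F i) ≤ _) h⟩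
  · rw [eq_top_iff, ← hgen]
    exact sup_le_sup_right le_sup_right _

variable [PerfectField k] (p : ℕ) [hp : Fact p.Prime] [CharP k p]

theorem lp_add {n S L : ℕ} (F : Fin n → IntermediateField k K)
    (hfg : ∀ i, Algebra.EssFiniteType k (F i)) (htr : ∀ i, Algebra.trdeg k (F i) = 1)
    (g : ∀ i, F i) (y : Fin S → K)
    (hy : ∀ s, y s ^ p ∈ Submodule.span k (insert 1 (Set.range fun i => (g i : K))))
    (ζ : Fin L → K) (mζ : Fin L → ℕ) (hζ : ∀ l, ζ l ≠ 0) (hmζ : ∀ l, (mζ l : k) ≠ 0)
    (hk : ∀ l, ∃ h : ∀ i, F i, ζ l ^ mζ l = ∏ i, (h i : K))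
    (hgen : (⨆ i, F i) ⊔ IntermediateField.adjoin k (Set.range y ∪ Set.range ζ) = ⊤)
    (hn : Algebra.trdeg k K = n) (V : ValuationSubring K)
    (hV : ∀ c : k, algebraMap k K c ∈ V) : Uniformizable k V := by
  classical
  have hp0 : p ≠ 0 := hp.out.ne_zero
  have hCK : CharP K p := charP_of_injective_algebraMap (algebraMap k K).injective p
  have hEK : ExpChar K p := ExpChar.prime hp.out
  have hroot : ∀ c : k, ∃ d, d ^ p = c := root_of_perfect (k := k) p
  choose rt hrt using hroot
  -- the germs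
  choose A B u w Φ N' D m ε hT hB hg using fun i =>
    add_dec p (htr i) (trc V (F i)) (fun c => hV c) (g i)
  have hG := fun i => (hT i).toK
  -- independence
  have hF : ∀ i, F i ≤ ⨆ i, F i := le_iSup F
  have hZ : ∀ x ∈ Set.range y ∪ Set.range ζ, ∃ m : ℕ, 0 < m ∧ x ^ m ∈ ⨆ i, F i := by
    rintro _ (⟨s, rfl⟩ | ⟨l, rfl⟩)
    · refine ⟨p, hp.out.pos, ?_⟩
      have h1 : Submodule.span k (insert 1 (Set.range fun i => (g i : K))) ≤
          (⨆ i, F i).toSubalgebra.toSubmodule := by
        rw [Submodule.span_le]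
        rintro x (rfl | ⟨i, rfl⟩)
        · exact one_mem (⨆ i, F i)
        · exact hF i (g i).2
      exact h1 (hy s)
    · refine ⟨mζ l, Nat.pos_of_ne_zero fun h0 => hmζ l (by rw [h0]; simp), ?_⟩
      obtain ⟨h, hh⟩ := hk l
      rw [hh]
      exact prod_mem fun i _ => hF i (h i).2
  have hindB := indep_curves F B (fun i => Curve.alg_of_tr (htr i) (hB i)) hZ hgen hn
  have hindu := indep_curves F u (fun i => (hT i).ger.alg) hZ hgen hn
  -- coefficients
  have hco : ∀ s, ∃ (c : k) (a : Fin n → k), y s ^ p =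
      algebraMap k K c + ∑ i, algebraMap k K (a i) * (g i : K) := by
    intro s
    have h1 := hy s
    rw [Submodule.mem_span_insert] at h1
    obtain ⟨c, x, hx, h2⟩ := h1
    obtain ⟨a, rfl⟩ := (Submodule.mem_span_range_iff_exists_fun k).1 hx
    refine ⟨c, a, ?_⟩
    rw [h2]
    simp [Algebra.smul_def]
  choose c a hca using hco
  let κ := algebraMap k K
  let y' : Fin S → K := fun s => y s - κ (rt (c s)) - ∑ i, κ (rt (a s i)) * (A i : K)
  let α : Matrix (Fin S) (Fin n) k := fun s i => a s i * ε i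
  have hgK : ∀ i, (g i : K) = (A i : K) ^ p + κ (ε i) * (B i : K) := by
    intro i
    have := congrArg (Subtype.val : F i → K) (hg i)
    exact this
  have hy' : ∀ s, y' s ^ p = ∑ i, κ (α s i) * (B i : K) := by
    intro s
    simp only [y']
    rw [sub_pow_expChar, sub_pow_expChar, ← map_pow, hrt, sum_pow_char, hca]
    simp only [hgK, mul_pow]
    have : ∀ i, κ (rt (a s i)) ^ p = κ (a s i) := fun i => by rw [← map_pow, hrt]
    simp only [this, mul_add, Finset.sum_add_distrib]
    have h2 : ∀ i, κ (α s i) * (B i : K) = κ (a s i) * (κ (ε i) * (B i : K)) := by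
      intro i
      simp only [α]
      rw [map_mul, mul_assoc]
    simp only [h2]
    ring
  have hyy : ∀ s, y s = y' s + κ (rt (c s)) + ∑ i, κ (rt (a s i)) * (A i : K) := by
    intro s
    simp only [y']
    ring
  clear_value α y'
  -- echelon form
  obtain ⟨P, Q, W, π, hQP, hπ, hW⟩ := ech_gen α (fun i i' =>
    V.valuation ((u i : K) ^ m i) ≤ V.valuation ((u i' : K) ^ m i')) (by
      intro T hT
      obtain ⟨i, hi, him⟩ := Finset.exists_max_image T (fun i => V.valuation ((u i : K) ^ m i)) hT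
      exact ⟨i, hi, fun i' hi' => him i' hi'⟩)
  let η : Fin S → K := fun l => ∑ s, κ (rt (P l s)) * y' s
  have hη : ∀ l, η l ^ p = ∑ i, κ ((P * α) l i) * (B i : K) := by
    intro l
    simp only [η]
    rw [sum_pow_char]
    simp only [mul_pow, hy', Finset.mul_sum]
    rw [Finset.sum_comm]
    refine Finset.sum_congr rfl fun i _ => ?_
    rw [Matrix.mul_apply, map_sum, Finset.sum_mul]
    refine Finset.sum_congr rfl fun s _ => ?_
    rw [← map_pow, hrt, map_mul, mul_assoc]
  have hηW : ∀ l ∉ W, η l = 0 := by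
    intro l hl
    have h1 := hη l
    simp only [hW l hl, map_zero, zero_mul, Finset.sum_const_zero] at h1
    exact pow_eq_zero_iff hp0 |>.1 h1
  have hηne : ∀ l : {l // l ∈ W}, η l ≠ 0 := by
    intro l h0
    have h1 := hη l
    rw [h0, zero_pow hp0] at h1
    have h2 := hindB.linearIndependent
    rw [Fintype.linearIndependent_iff] at h2
    have h3 := h2 (fun i => (P * α) l i) (by
      rw [h1]
      refine Finset.sum_congr rfl fun i _ => ?_
      rw [Algebra.smul_def])
    exact (hπ l).1 (h3 (π l))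
  have hback : ∀ s, y' s = ∑ l, κ (rt (Q s l)) * η l := by
    intro s
    have h1 : y' s ^ p = (∑ l, κ (rt (Q s l)) * η l) ^ p := by
      rw [sum_pow_char]
      simp only [mul_pow, hη, hy']
      have : ∀ l, κ (rt (Q s l)) ^ p = κ (Q s l) := fun l => by rw [← map_pow, hrt]
      simp only [this, Finset.mul_sum]
      rw [Finset.sum_comm]
      refine Finset.sum_congr rfl fun i _ => ?_
      have h2 : α s i = ∑ l, Q s l * (P * α) l i := by
        have h3 : (Q * (P * α)) s i = α s i := by rw [← Matrix.mul_assoc, hQP, Matrix.one_mul]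
        rw [← h3, Matrix.mul_apply]
      rw [h2, map_sum, Finset.sum_mul]
      refine Finset.sum_congr rfl fun l _ => ?_
      rw [map_mul, mul_assoc]
    exact frobenius_inj K p h1
  clear_value η
  have hGc : ∀ i, (B i : K) = (u i : K) ^ m i * (MvPolynomial.aeval ![(u i : K), (w i : K)] (N' i) /
      MvPolynomial.aeval ![(u i : K), (w i : K)] (D i)) := by
    intro i
    have h1 := (hG i).fac
    rwa [map_zero, sub_zero] at h1
  have hev : ∀ i (q : MvPolynomial (Fin 2) k),
      MvPolynomial.aeval ![(u i : K), (w i : K)] q ∈ V := by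
    intro i q
    apply aeval_mem hV
    intro x
    fin_cases x
    · exact (hG i).huV
    · exact (hG i).hwV
  have hprod : ∀ (i : Fin n) (f : Fin n → K),
      ∏ h, f h ^ (Pi.single i 1 : Fin n → ℕ) h = f i := by
    intro i f
    rw [Finset.prod_eq_single i]
    · simp
    · intro b _ hb
      rw [Pi.single_eq_of_ne hb, pow_zero]
    · simp
  let r : RDat (k := k) V p n {l // l ∈ W} Empty (Fin n) :=
    { u := fun i => u i
      w := fun i => w i
      Φ := Φ
      m := m
      gi := id
      N := N'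
      D := D
      η := Sum.elim (fun l => η l) Empty.elim
      a := fun l i => (P * α) l i
      gA := fun _ i => Pi.single i 1
      πA := π
      f := Empty.elim
      gB := Empty.elim
      πB := Empty.elim
      hu0 := fun i => (hG i).hu0
      huV := fun i => (hG i).huV
      hwV := fun i => (hG i).hwV
      hΦ := fun i => (hG i).hΦ
      hΦ0 := fun i => (hG i).hΦ0
      hΦV := fun i => (hG i).hΦV
      hD0 := fun i => (hG i).hD0
      hDV := fun i => (hG i).hDV
      hη := by
        rintro (l | l)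
        · exact hηne l
        · exact l.elim
      hm := fun i => (hG i).hm
      relA := by
        intro l
        change η l ^ p = _
        rw [hη l]
        refine Finset.sum_congr rfl fun i _ => ?_
        rw [hprod i, hGc i]
        rfl
      relB := fun l => l.elim
      hUA := by
        intro l
        rw [hprod (π l)]
        refine ⟨div_ne_zero (hG _).hN0 (hG _).hD0, ?_⟩
        rw [inv_div, div_eq_mul_inv]
        exact mul_mem (hev _ _) (hG _).hNV
      hUB := fun l => l.elim
      ha1 := fun l => (hπ l).1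
      ha2 := fun l l' h => (hπ l).2.1 l' (fun h' => h (Subtype.ext h'))
      ha3 := fun l i h => (hπ l).2.2 i h
      hb1 := fun l => l.elim
      hb2 := fun l => l.elim
      hab := fun _ l => l.elim
      hdir := fun i => (hG i).dir }
  obtain ⟨q, hq⟩ := exists_kum (r.toG hV) F (fun i => i) u w Φ
    (fun i => (hT i).ger) (fun i => rfl) (fun i => rfl) ζ mζ hζ hmζ hk
  refine LG.uniformizable_of_gdat (q.kum hV) ?_ hV (id : Fin n → Fin n) hindu
    (q.kum_alg hV _ (r.algCond hV hp.out.pos))
  set M := IntermediateField.adjoin k (Set.range (q.kum hV).u ∪ Set.range (q.kum hV).w ∪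
    Set.range (q.kum hV).x) with hM
  have hu : ∀ i, (u i : K) ∈ M := fun i =>
    IntermediateField.subset_adjoin _ _ (Or.inl (Or.inl ⟨i, rfl⟩))
  have hw : ∀ i, (w i : K) ∈ M := fun i =>
    IntermediateField.subset_adjoin _ _ (Or.inl (Or.inr ⟨i, rfl⟩))
  have hxx : ∀ l, r.zf l ∈ M := fun l =>
    IntermediateField.subset_adjoin _ _ (Or.inr ⟨Sum.inl l, rfl⟩)
  have hzf : ∀ l, q.zf l ∈ M := fun l =>
    IntermediateField.subset_adjoin _ _ (Or.inr ⟨Sum.inr l, rfl⟩)
  have hFM : ∀ i, F i ≤ M := fun i => gen_field (hT i).gen (hu i) (hw i)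
  have hηM : ∀ l, η l ∈ M := by
    intro l
    by_cases hl : l ∈ W
    · have h1 := hxx (Sum.inl ⟨l, hl⟩)
      have h2 := r.zf_pow (Sum.inl ⟨l, hl⟩)
      have h3 : r.η (Sum.inl ⟨l, hl⟩) = η l := rfl
      rw [← h3, ← h2]
      exact zpow_mem h1 _
    · rw [hηW l hl]
      exact zero_mem M
  rw [eq_top_iff, ← hgen]
  refine sup_le (iSup_le hFM) ?_
  rw [IntermediateField.adjoin_le_iff]
  rintro _ (⟨s, rfl⟩ | ⟨l, rfl⟩)
  · rw [hyy s]
    refine add_mem (add_mem ?_ (M.algebraMap_mem _)) ?_
    · rw [hback s]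
      exact sum_mem fun l _ => mul_mem (M.algebraMap_mem _) (hηM l)
    · exact sum_mem fun i _ => mul_mem (M.algebraMap_mem _) (hFM i (A i).2)
  · rw [← hq, ← q.zf_pow l]
    exact zpow_mem (hzf l) _

end

end LP
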