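import Pool.Agent.helper90.LT.PSep
import Pool.Agent.helper90.LT.KSet

/-!
Local decomposition of a function on a curve into a `p`-th power and a tame function.
-/

open Polynomial
open scoped IntermediateField

namespace LP

open LU LT

universe u

section

variable {k F : Type u} [Field k] [Field F] [Algebra k F] (p : ℕ) [hp : Fact p.Prime]

lemma root_of_perfect [PerfectField k] [CharP k p] (c : k) : ∃ d, d ^ p = c := by
  have : ExpChar k p := ExpChar.prime hp.out
  have : PerfectRing k p := PerfectField.toPerfectRing p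
  obtain ⟨d, hd⟩ := surjective_frobenius k p c
  exact ⟨d, hd⟩

lemma transcendental_of_not_pow [PerfectField k] [CharP k p] {g : F} (hg : ∀ x, x ^ p ≠ g) :
    Transcendental k g := by
  intro halg
  have h1 : Algebra.IsAlgebraic k k⟮g⟯ := by
    exact IntermediateField.isAlgebraic_adjoin_simple halg.isIntegral
  have h2 : PerfectField k⟮g⟯ := Algebra.IsAlgebraic.perfectField (K := k)
  have h3 : CharP k⟮g⟯ p := charP_of_injective_algebraMap (algebraMap k k⟮g⟯).injective p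
  obtain ⟨d, hd⟩ := root_of_perfect (k := k⟮g⟯) p ⟨g, IntermediateField.mem_adjoin_simple_self k g⟩
  exact hg d (congrArg Subtype.val hd)

lemma germ_u_lt {O : ValuationSubring F} {u w : F} {Φ : MvPolynomial (Fin 2) k}
    (hG : IsGerm O u w Φ) (hne : O ≠ ⊤) : O.valuation u < 1 ∧ O.valuation u ≠ 0 := by
  have h0 : O.valuation u ≠ 0 := by simpa using hG.hu0
  refine ⟨?_, h0⟩
  have h1 := hG.nontriv hne
  rw [← O.valuation_le_one_iff, map_inv₀, not_le] at h1
  exact (one_lt_inv₀ (zero_lt_iff.2 h0)).1 h1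

lemma val_unit {O : ValuationSubring F} {x : F} (hx : x ≠ 0) (h1 : x ∈ O) (h2 : x⁻¹ ∈ O) :
    O.valuation x = 1 := val_one_of hx h1 h2

lemma germ_mem {O : ValuationSubring F} (hO : ∀ c : k, algebraMap k F c ∈ O) {u w : F}
    {Φ : MvPolynomial (Fin 2) k} (hG : IsGerm O u w Φ) (q : MvPolynomial (Fin 2) k) :
    MvPolynomial.aeval ![u, w] q ∈ O := by
  apply aeval_mem hO
  intro i
  fin_cases i
  · exact hG.huO
  · exact hG.hwO

/-- factorization with values -/
lemma facs_val {O : ValuationSubring F} (hO : ∀ c : k, algebraMap k F c ∈ O) {u w : F}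
    {Φ : MvPolynomial (Fin 2) k} (hG : IsGerm O u w Φ) (g : F) (hg : g ≠ 0) :
    ∃ (m : ℤ) (N D : MvPolynomial (Fin 2) k),
    MvPolynomial.aeval ![u, w] N ≠ 0 ∧ (MvPolynomial.aeval ![u, w] N)⁻¹ ∈ O ∧
    MvPolynomial.aeval ![u, w] D ≠ 0 ∧ (MvPolynomial.aeval ![u, w] D)⁻¹ ∈ O ∧
    g = u ^ m * (MvPolynomial.aeval ![u, w] N / MvPolynomial.aeval ![u, w] D) ∧
    O.valuation g = O.valuation u ^ m := by
  obtain ⟨m, N, D, h1, h2, h3, h4, h5⟩ := facs hG g hg
  refine ⟨m, N, D, h1, h2, h3, h4, h5, ?_⟩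
  rw [h5, map_mul, map_zpow₀, map_div₀, val_unit h1 (germ_mem hO hG N) h2,
    val_unit h3 (germ_mem hO hG D) h4, div_one, mul_one]

lemma zpow_ne {Γ : Type*} [LinearOrderedCommGroupWithZero Γ] {a : Γ} (h0 : a ≠ 0) (h1 : a < 1)
    {m n : ℤ} (h : m ≠ n) : a ^ m ≠ a ^ n := by
  have hs := zpow_right_strictAnti₀ (zero_lt_iff.2 h0) h1
  exact fun h' => h (hs.injective h')

/-- values of the partial sums of a decomposition -/
lemma sum_val {O : ValuationSubring F} (hO : ∀ c : k, algebraMap k F c ∈ O) {u w : F}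
    {Φ : MvPolynomial (Fin 2) k} (hG : IsGerm O u w Φ) (hne : O ≠ ⊤) (a : ℕ → F) (s : Finset ℕ)
    (hs : ∀ i ∈ s, i < p) : ∑ i ∈ s, a i ^ p * u ^ i = 0 ∨ ∃ m : ℤ, ∃ i ∈ s, (p : ℤ) ∣ m - i ∧
      O.valuation (∑ i ∈ s, a i ^ p * u ^ i) = O.valuation u ^ m := by
  obtain ⟨hu1, hu0⟩ := germ_u_lt hG hne
  induction s using Finset.cons_induction with
  | empty => left; simp
  | cons j s hj ih =>
    rw [Finset.sum_cons]
    have ih' := ih fun i hi => hs i (Finset.mem_cons_of_mem hi)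
    have hjp := hs j (Finset.mem_cons_self _ _)
    by_cases ha : a j = 0
    · rw [ha, zero_pow hp.out.ne_zero, zero_mul, zero_add]
      rcases ih' with h | ⟨m, i, hi, h1, h2⟩
      · exact Or.inl h
      · exact Or.inr ⟨m, i, Finset.mem_cons_of_mem hi, h1, h2⟩
    · obtain ⟨l, -, -, -, -, -, -, -, hl⟩ := facs_val hO hG (a j) ha
      have ht : O.valuation (a j ^ p * u ^ j) = O.valuation u ^ (p * l + j : ℤ) := by
        rw [map_mul, map_pow, map_pow, hl, zpow_add₀ hu0, ← zpow_natCast, ← zpow_mul,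
          zpow_natCast, mul_comm l]
      right
      rcases ih' with h | ⟨m, i, hi, h1, h2⟩
      · rw [h, add_zero]
        exact ⟨p * l + j, j, Finset.mem_cons_self _ _, ⟨l, by ring⟩, ht⟩
      · have hip := hs i (Finset.mem_cons_of_mem hi)
        have hmn : (p * l + j : ℤ) ≠ m := by
          rintro rfl
          have h3 : (p : ℤ) ∣ j - i := by
            have : (j : ℤ) - i = (p * l + j - i) - p * l := by ring
            rw [this]
            exact dvd_sub h1 ⟨l, rfl⟩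
          have h4 : (j : ℤ) - i = 0 := by
            apply Int.eq_zero_of_abs_lt_dvd h3
            rw [abs_lt]
            constructor <;> omega
          have : j = i := by omega
          exact hj (this ▸ hi)
        have h5 := zpow_ne hu0 hu1 hmn
        rcases lt_or_gt_of_ne h5 with h6 | h6
        · refine ⟨m, i, Finset.mem_cons_of_mem hi, h1, ?_⟩
          rw [Valuation.map_add_eq_of_lt_right _ (by rw [ht, h2]; exact h6), h2]
        · refine ⟨p * l + j, j, Finset.mem_cons_self _ _, ⟨l, by ring⟩, ?_⟩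
          rw [Valuation.map_add_eq_of_lt_left _ (by rw [ht, h2]; exact h6), ht]

lemma tgerm_self {O : ValuationSubring F} {u w : F} {Φ : MvPolynomial (Fin 2) k}
    (hG : IsGerm O u w Φ) : TGerm O u u w Φ 1 1 1 0 :=
  ⟨hG.hu0, hG.huO, hG.hwO, hG.hΦ, hG.hΦ0, hG.hΦO, hG.tr, hG.gen,
      by simp, by simp, by simp, by simp, by simp, by simp, Or.inr ⟨rfl, rfl⟩, hG⟩

omit hp in
lemma tgerm_of_val [CharP k p] {O : ValuationSubring F} (hO : ∀ c : k, algebraMap k F c ∈ O)
    {u w : F} {Φ : MvPolynomial (Fin 2) k} (hG : IsGerm O u w Φ) (hne : O ≠ ⊤) {B : F} {m : ℤ}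
    (hv : O.valuation B = O.valuation u ^ m) (hm : ¬ (p : ℤ) ∣ m) :
    ∃ N D, TGerm O B u w Φ N D m 0 := by
  obtain ⟨hu1, hu0⟩ := germ_u_lt hG hne
  have hB : B ≠ 0 := by
    rintro rfl
    rw [map_zero] at hv
    exact zpow_ne_zero _ hu0 hv.symm
  obtain ⟨m', N, D, h1, h2, h3, h4, h5, h6⟩ := facs_val hO hG B hB
  have hmm : m' = m := by
    by_contra h
    exact zpow_ne hu0 hu1 h (h6.symm.trans hv)
  subst hmm
  refine ⟨N, D, ⟨hG.hu0, hG.huO, hG.hwO, hG.hΦ, hG.hΦ0, hG.hΦO, hG.tr, hG.gen, h1, h2, h3, h4,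
    by rw [map_zero, sub_zero]; exact h5, ?_, Or.inl (hG.nontriv hne), hG⟩⟩
  rwa [Ne, CharP.intCast_eq_zero_iff k p]

lemma not_pow_of_val {O : ValuationSubring F} (hO : ∀ c : k, algebraMap k F c ∈ O)
    {u w : F} {Φ : MvPolynomial (Fin 2) k} (hG : IsGerm O u w Φ) (hne : O ≠ ⊤) {B : F} {m : ℤ}
    (hv : O.valuation B = O.valuation u ^ m) (hm : ¬ (p : ℤ) ∣ m) (x : F) : x ^ p ≠ B := by
  rintro rfl
  obtain ⟨hu1, hu0⟩ := germ_u_lt hG hne
  have hx : x ≠ 0 := by
    rintro rfl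
    rw [zero_pow hp.out.ne_zero, map_zero] at hv
    exact zpow_ne_zero _ hu0 hv.symm
  obtain ⟨l, -, -, -, -, -, -, -, hl⟩ := facs_val hO hG x hx
  rw [map_pow, hl, ← zpow_natCast, ← zpow_mul] at hv
  by_cases h : l * p = m
  · exact hm ⟨l, by rw [← h]; ring⟩
  · exact zpow_ne hu0 hu1 h hv

lemma sum_split (a : ℕ → F) (u : F) : ∑ i ∈ Finset.range p, a i ^ p * u ^ i =
    a 0 ^ p + ∑ i ∈ Finset.Ico 1 p, a i ^ p * u ^ i := by
  rw [Finset.range_eq_Ico, Finset.sum_eq_sum_Ico_succ_bot hp.out.pos]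
  simp

lemma ico_val {O : ValuationSubring F} (hO : ∀ c : k, algebraMap k F c ∈ O) {u w : F}
    {Φ : MvPolynomial (Fin 2) k} (hG : IsGerm O u w Φ) (hne : O ≠ ⊤) (a : ℕ → F)
    (h0 : ∑ i ∈ Finset.Ico 1 p, a i ^ p * u ^ i ≠ 0) : ∃ m : ℤ, ¬ (p : ℤ) ∣ m ∧
      O.valuation (∑ i ∈ Finset.Ico 1 p, a i ^ p * u ^ i) = O.valuation u ^ m := by
  obtain ⟨m, i, hi, h1, h2⟩ := (sum_val p hO hG hne a (Finset.Ico 1 p)
    (fun i hi => (Finset.mem_Ico.1 hi).2)).resolve_left h0
  refine ⟨m, fun hm => ?_, h2⟩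
  have h3 : (p : ℤ) ∣ i := by
    have : (i : ℤ) = m - (m - i) := by ring
    rw [this]
    exact dvd_sub hm h1
  have h4 := Int.natCast_dvd_natCast.1 h3
  have h5 := Finset.mem_Ico.1 hi
  have := Nat.le_of_dvd (by omega) h4
  omega

variable [PerfectField k] [CharP k p] [Algebra.EssFiniteType k F]

/-- additive decomposition -/
theorem add_dec (htr : Algebra.trdeg k F = 1) (O : ValuationSubring F)
    (hO : ∀ c : k, algebraMap k F c ∈ O) (g : F) :
    ∃ (A B u w : F) (Φ N D : MvPolynomial (Fin 2) k) (m : ℤ) (ε : k),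
      TGerm O B u w Φ N D m 0 ∧ Transcendental k B ∧ g = A ^ p + algebraMap k F ε * B := by
  have hFp : CharP F p := charP_of_injective_algebraMap (algebraMap k F).injective p
  have hroot : ∀ c : k, ∃ d, d ^ p = c := root_of_perfect (k := k) p
  obtain ⟨u, w, Φ, hG⟩ := exists_germ htr O hO
  have hpb : ∀ g : F, PB p u g := pb_of_sep (p := p) hroot u (sep_of_germ hG)
  by_cases hpow : ∃ x, x ^ p = g
  · obtain ⟨x, rfl⟩ := hpow
    exact ⟨x, u, u, w, Φ, 1, 1, 1, 0, tgerm_self hG, hG.tr, by simp⟩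
  push Not at hpow
  by_cases hne : O = ⊤
  · subst hne
    have htrans : Transcendental k g := transcendental_of_not_pow p hpow
    obtain ⟨w', Φ', hG'⟩ := Curve.germ_top_of htr g htrans (sep_of_not_pow p hroot u hpb g hpow)
    exact ⟨0, g, g, w', Φ', 1, 1, 1, 1, tgerm_self hG', htrans, by
      rw [zero_pow hp.out.ne_zero]; simp⟩
  · obtain ⟨a, ha⟩ := hpb g
    rw [sum_split] at ha
    have hS : ∑ i ∈ Finset.Ico 1 p, a i ^ p * u ^ i ≠ 0 := by
      intro h
      rw [h, add_zero] at ha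
      exact hpow _ ha.symm
    obtain ⟨m, hm, hv⟩ := ico_val p hO hG hne a hS
    obtain ⟨N, D, hT⟩ := tgerm_of_val p hO hG hne hv hm
    exact ⟨a 0, _, u, w, Φ, N, D, m, 1, hT,
      transcendental_of_not_pow p (not_pow_of_val p hO hG hne hv hm), by rw [map_one, one_mul]; exact ha⟩

/-- multiplicative decomposition -/
theorem mul_dec (htr : Algebra.trdeg k F = 1) (O : ValuationSubring F)
    (hO : ∀ c : k, algebraMap k F c ∈ O) (g : F) (hg : g ≠ 0) :
    ∃ (A B u w : F) (Φ N D : MvPolynomial (Fin 2) k) (m : ℤ),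
      TGerm O B u w Φ N D m 0 ∧ Transcendental k B ∧ A ≠ 0 ∧
      (g = A ^ p ∨ g = A ^ p * B ∨ (g = A ^ p * (1 + B) ∧ O.valuation B < 1 ∧ u⁻¹ ∉ O)) := by
  have hFp : CharP F p := charP_of_injective_algebraMap (algebraMap k F).injective p
  have hroot : ∀ c : k, ∃ d, d ^ p = c := root_of_perfect (k := k) p
  obtain ⟨u, w, Φ, hG⟩ := exists_germ htr O hO
  have hpb : ∀ g : F, PB p u g := pb_of_sep (p := p) hroot u (sep_of_germ hG)
  by_cases hpow : ∃ x, x ^ p = g
  · obtain ⟨x, rfl⟩ := hpow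
    exact ⟨x, u, u, w, Φ, 1, 1, 1, tgerm_self hG, hG.tr, fun h => hg (by
      rw [h, zero_pow hp.out.ne_zero]), Or.inl rfl⟩
  push Not at hpow
  by_cases hne : O = ⊤
  · subst hne
    have htrans : Transcendental k g := transcendental_of_not_pow p hpow
    obtain ⟨w', Φ', hG'⟩ := Curve.germ_top_of htr g htrans (sep_of_not_pow p hroot u hpb g hpow)
    exact ⟨1, g, g, w', Φ', 1, 1, 1, tgerm_self hG', htrans, one_ne_zero,
      Or.inr (Or.inl (by rw [one_pow, one_mul]))⟩
  · obtain ⟨hu1, hu0⟩ := germ_u_lt hG hne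
    obtain ⟨a, ha⟩ := hpb g
    rw [sum_split] at ha
    set S := ∑ i ∈ Finset.Ico 1 p, a i ^ p * u ^ i with hSdef
    have hS : S ≠ 0 := by
      intro h
      rw [h, add_zero] at ha
      exact hpow _ ha.symm
    obtain ⟨m, hm, hv⟩ := ico_val p hO hG hne a hS
    have key : O.valuation g = O.valuation u ^ m →
        ∃ (A B u w : F) (Φ N D : MvPolynomial (Fin 2) k) (m : ℤ),
      TGerm O B u w Φ N D m 0 ∧ Transcendental k B ∧ A ≠ 0 ∧
      (g = A ^ p ∨ g = A ^ p * B ∨ (g = A ^ p * (1 + B) ∧ O.valuation B < 1 ∧ u⁻¹ ∉ O)) := by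
      intro hvg
      obtain ⟨N, D, hT⟩ := tgerm_of_val p hO hG hne hvg hm
      exact ⟨1, g, u, w, Φ, N, D, m, hT,
        transcendental_of_not_pow p (not_pow_of_val p hO hG hne hvg hm), one_ne_zero,
        Or.inr (Or.inl (by rw [one_pow, one_mul]))⟩
    by_cases ha0 : a 0 = 0
    · rw [ha0, zero_pow hp.out.ne_zero, zero_add] at ha
      apply key
      rw [ha]
      exact hv
    obtain ⟨l, -, -, -, -, -, -, -, hl⟩ := facs_val hO hG (a 0) ha0
    have hvp : O.valuation (a 0 ^ p) = O.valuation u ^ (l * p : ℤ) := by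
      rw [map_pow, hl, zpow_mul, zpow_natCast]
    have hml : (l * p : ℤ) ≠ m := by
      rintro rfl
      exact hm ⟨l, by ring⟩
    have h5 := zpow_ne hu0 hu1 hml
    rcases lt_or_gt_of_ne h5 with h6 | h6
    · apply key
      rw [ha, Valuation.map_add_eq_of_lt_right _ (by rw [hv, hvp]; exact h6), hv]
    · have hap : a 0 ^ p ≠ 0 := pow_ne_zero _ ha0
      have hvB : O.valuation (S / a 0 ^ p) = O.valuation u ^ (m - l * p) := by
        rw [map_div₀, hv, hvp, zpow_sub₀ hu0]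
      have hm' : ¬ (p : ℤ) ∣ m - l * p := by
        intro h
        apply hm
        have : m = (m - l * p) + p * l := by ring
        rw [this]
        exact dvd_add h ⟨l, rfl⟩
      obtain ⟨N, D, hT⟩ := tgerm_of_val p hO hG hne hvB hm'
      refine ⟨a 0, S / a 0 ^ p, u, w, Φ, N, D, m - l * p, hT,
        transcendental_of_not_pow p (not_pow_of_val p hO hG hne hvB hm'), ha0,
        Or.inr (Or.inr ⟨?_, ?_, hG.nontriv hne⟩)⟩
      · rw [mul_add, mul_one, mul_div_cancel₀ _ hap]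
        exact ha
      · rw [map_div₀]
        have hpos : 0 < O.valuation (a 0 ^ p) := zero_lt_iff.2 (by simpa using fun h => absurd h ha0)
        rw [div_lt_one₀ hpos, hv, hvp]
        exact h6

end

end LP
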