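import Pool.Agent.helper90.LP.LocDec

/-!
Units `1 + B` at the germ of a tame function `B`.
-/

open Polynomial

namespace LP

open LU LT

universe u

section

variable {k F : Type u} [Field k] [Field F] [Algebra k F]

lemma lt_one_of_inv {O : ValuationSubring F} {x : F} (h : x⁻¹ ∉ O) : O.valuation x < 1 := by
  by_cases h0 : x = 0
  · rw [h0, map_zero]; exact zero_lt_one
  have h1 : O.valuation x ≠ 0 := by simpa using h0
  rw [← O.valuation_le_one_iff, map_inv₀, not_le] at h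
  exact (one_lt_inv₀ (zero_lt_iff.2 h1)).1 h

lemma inv_of_lt_one {O : ValuationSubring F} {x : F} (h0 : x ≠ 0) (h : O.valuation x < 1) :
    x⁻¹ ∉ O := by
  have h1 : O.valuation x ≠ 0 := by simpa using h0
  rw [← O.valuation_le_one_iff, map_inv₀, not_le]
  exact (one_lt_inv₀ (zero_lt_iff.2 h1)).2 h

lemma facs_exp {O : ValuationSubring F} (hO : ∀ c : k, algebraMap k F c ∈ O)
    {u w : F} {Φ : MvPolynomial (Fin 2) k} (hG : IsGerm O u w Φ) (hne : O ≠ ⊤) {x : F} {m : ℤ}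
    (hv : O.valuation x = O.valuation u ^ m) : ∃ (N D : MvPolynomial (Fin 2) k),
    MvPolynomial.aeval ![u, w] N ≠ 0 ∧ (MvPolynomial.aeval ![u, w] N)⁻¹ ∈ O ∧
    MvPolynomial.aeval ![u, w] D ≠ 0 ∧ (MvPolynomial.aeval ![u, w] D)⁻¹ ∈ O ∧
    x = u ^ m * (MvPolynomial.aeval ![u, w] N / MvPolynomial.aeval ![u, w] D) := by
  obtain ⟨hu1, hu0⟩ := germ_u_lt hG hne
  have hx : x ≠ 0 := by
    rintro rfl
    rw [map_zero] at hv
    exact zpow_ne_zero _ hu0 hv.symm
  obtain ⟨m', N, D, h1, h2, h3, h4, h5, h6⟩ := facs_val hO hG x hx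
  have hmm : m' = m := by
    by_contra h
    exact zpow_ne hu0 hu1 h (h6.symm.trans hv)
  subst hmm
  exact ⟨N, D, h1, h2, h3, h4, h5⟩

lemma unit_one_add {O : ValuationSubring F} (hO : ∀ c : k, algebraMap k F c ∈ O)
    {u w : F} {Φ : MvPolynomial (Fin 2) k} (hG : IsGerm O u w Φ) (hne : O ≠ ⊤) {B : F}
    (hB : O.valuation B < 1) : ∃ (N D : MvPolynomial (Fin 2) k),
    MvPolynomial.aeval ![u, w] N ≠ 0 ∧ (MvPolynomial.aeval ![u, w] N)⁻¹ ∈ O ∧
    MvPolynomial.aeval ![u, w] D ≠ 0 ∧ (MvPolynomial.aeval ![u, w] D)⁻¹ ∈ O ∧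
    1 + B = MvPolynomial.aeval ![u, w] N / MvPolynomial.aeval ![u, w] D := by
  have hv : O.valuation (1 + B) = O.valuation u ^ (0 : ℤ) := by
    rw [zpow_zero, Valuation.map_one_add_of_lt _ hB]
  obtain ⟨N, D, h1, h2, h3, h4, h5⟩ := facs_exp hO hG hne hv
  exact ⟨N, D, h1, h2, h3, h4, by rw [h5, zpow_zero, one_mul]⟩

lemma val_pow_sub_one {O : ValuationSubring F} (hO : ∀ c : k, algebraMap k F c ∈ O)
    {B : F} (hB : O.valuation B < 1) {f : ℕ} (hf : (f : k) ≠ 0) :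
    O.valuation ((1 + B) ^ f - 1) = O.valuation B := by
  have h1 : O.valuation (1 + B) = 1 := Valuation.map_one_add_of_lt _ hB
  have hgs := geom_sum_mul (1 + B) f
  rw [add_sub_cancel_left] at hgs
  have hff : O.valuation (f : F) = 1 := by
    have e : (f : F) = algebraMap k F f := by simp
    have h0 : algebraMap k F (f : k) ≠ 0 := (map_ne_zero (algebraMap k F)).2 hf
    rw [e]
    refine val_one_of h0 (hO _) ?_
    rw [← map_inv₀]
    exact hO _
  have hs : O.valuation (∑ i ∈ Finset.range f, (1 + B) ^ i - (f : F)) < 1 := by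
    have e : ∑ i ∈ Finset.range f, (1 + B) ^ i - (f : F) =
        ∑ i ∈ Finset.range f, ((1 + B) ^ i - 1) := by
      rw [Finset.sum_sub_distrib]
      simp
    rw [e]
    apply Valuation.map_sum_lt _ one_ne_zero
    intro i _
    have e2 := geom_sum_mul (1 + B) i
    rw [add_sub_cancel_left] at e2
    rw [← e2, map_mul]
    have h3 : O.valuation (∑ j ∈ Finset.range i, (1 + B) ^ j) ≤ 1 := by
      apply Valuation.map_sum_le
      intro j _
      rw [map_pow, h1, one_pow]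
    calc _ ≤ 1 * O.valuation B := by gcongr
      _ < 1 := by rw [one_mul]; exact hB
  have h4 : O.valuation (∑ i ∈ Finset.range f, (1 + B) ^ i) = 1 := by
    have e : ∑ i ∈ Finset.range f, (1 + B) ^ i =
        (f : F) + (∑ i ∈ Finset.range f, (1 + B) ^ i - (f : F)) := by ring
    rw [e, Valuation.map_add_eq_of_lt_left _ (by rw [hff]; exact hs), hff]
  rw [← hgs, map_mul, h4, one_mul]

/-- units at a germ -/
structure UN (O : ValuationSubring F) (u w : F) (N : MvPolynomial (Fin 2) k) : Prop where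
  ne : MvPolynomial.aeval ![u, w] N ≠ 0
  inv : (MvPolynomial.aeval ![u, w] N)⁻¹ ∈ O

lemma UN.one {O : ValuationSubring F} {u w : F} : UN (k := k) O u w 1 :=
  ⟨by simp, by simp [one_mem]⟩

/-- local multiplicative normal form of a function -/
structure MLoc (p : ℕ) (O : ValuationSubring F) (g A B u w : F) (Φ N D N1 D1 : MvPolynomial (Fin 2) k)
    (N2 D2 : ℕ → MvPolynomial (Fin 2) k) (m : ℤ) (ty : Fin 3) : Prop where
  hT : TGerm O B u w Φ N D m 0
  hB : Transcendental k B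
  hA : A ≠ 0
  c0 : ty = 0 → g = A ^ p
  c1 : ty = 1 → g = A ^ p * B
  c2 : ty = 2 → g = A ^ p * (1 + B) ∧ O.valuation B < 1 ∧ u⁻¹ ∉ O ∧
    1 + B = MvPolynomial.aeval ![u, w] N1 / MvPolynomial.aeval ![u, w] D1 ∧
    ∀ f : ℕ, (f : k) ≠ 0 → (1 + B) ^ f - 1 =
      u ^ m * (MvPolynomial.aeval ![u, w] (N2 f) / MvPolynomial.aeval ![u, w] (D2 f))
  c3 : ty ≠ 2 → N1 = 1 ∧ D1 = 1 ∧ ∀ f, N2 f = 1 ∧ D2 f = 1
  uN1 : UN O u w N1
  uD1 : UN O u w D1
  uN2 : ∀ f, UN O u w (N2 f)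
  uD2 : ∀ f, UN O u w (D2 f)

theorem exists_mloc (p : ℕ) [hp : Fact p.Prime] [PerfectField k] [CharP k p]
    (hfg : Algebra.EssFiniteType k F) (htr : Algebra.trdeg k F = 1) (O : ValuationSubring F)
    (hO : ∀ c : k, algebraMap k F c ∈ O) (g : F) (hg : g ≠ 0) :
    ∃ (A B u w : F) (Φ N D N1 D1 : MvPolynomial (Fin 2) k)
      (N2 D2 : ℕ → MvPolynomial (Fin 2) k) (m : ℤ) (ty : Fin 3),
      MLoc p O g A B u w Φ N D N1 D1 N2 D2 m ty := by
  classical
  obtain ⟨A, B, u, w, Φ, N, D, m, hT, hB, hA, hc⟩ := mul_dec p htr O hO g hg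
  rcases hc with hc | hc | ⟨hc, hlt, hu⟩
  · exact ⟨A, B, u, w, Φ, N, D, 1, 1, fun _ => 1, fun _ => 1, m, 0, hT, hB, hA, fun _ => hc,
      fun h => absurd h (by decide), fun h => absurd h (by decide),
      fun _ => ⟨rfl, rfl, fun _ => ⟨rfl, rfl⟩⟩, UN.one, UN.one, fun _ => UN.one, fun _ => UN.one⟩
  · exact ⟨A, B, u, w, Φ, N, D, 1, 1, fun _ => 1, fun _ => 1, m, 1, hT, hB, hA,
      fun h => absurd h (by decide), fun _ => hc, fun h => absurd h (by decide),
      fun _ => ⟨rfl, rfl, fun _ => ⟨rfl, rfl⟩⟩, UN.one, UN.one, fun _ => UN.one, fun _ => UN.one⟩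
  · have hne : O ≠ ⊤ := by
      rintro rfl
      exact hu (ValuationSubring.mem_top _)
    have hG := hT.ger
    obtain ⟨N1, D1, a1, a2, a3, a4, a5⟩ := unit_one_add hO hG hne hlt
    have hmem := germ_mem hO hG
    have hvB : O.valuation B = O.valuation u ^ m := by
      have h1 := hT.fac
      rw [map_zero, sub_zero] at h1
      rw [h1, map_mul, map_zpow₀, map_div₀, val_unit hT.hN0 (hmem N) hT.hNO,
        val_unit hT.hD0 (hmem D) hT.hDO, div_one, mul_one]
    have h2 : ∀ f : ℕ, ∃ N2 D2 : MvPolynomial (Fin 2) k, UN O u w N2 ∧ UN O u w D2 ∧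
        ((f : k) ≠ 0 → (1 + B) ^ f - 1 =
          u ^ m * (MvPolynomial.aeval ![u, w] N2 / MvPolynomial.aeval ![u, w] D2)) := by
      intro f
      by_cases hf : (f : k) = 0
      · exact ⟨1, 1, UN.one, UN.one, fun h => absurd hf h⟩
      · obtain ⟨N2, D2, b1, b2, b3, b4, b5⟩ := facs_exp hO hG hne
          ((val_pow_sub_one hO hlt hf).trans hvB)
        exact ⟨N2, D2, ⟨b1, b2⟩, ⟨b3, b4⟩, fun _ => b5⟩
    choose N2 D2 b1 b2 b3 using h2
    exact ⟨A, B, u, w, Φ, N, D, N1, D1, N2, D2, m, 2, hT, hB, hA,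
      fun h => absurd h (by decide), fun h => absurd h (by decide),
      fun _ => ⟨hc, hlt, hu, a5, b3⟩, fun h => absurd rfl h, ⟨a1, a2⟩, ⟨a3, a4⟩, b1, b2⟩

end

end LP
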