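import Pool.Agent.helper90.LP.RDat
import Pool.Agent.helper90.LP.MulDec

/-!
The system attached to `p`-th roots of products of functions on curves.
-/

namespace LP

open LU LT LG

universe u

section

variable {k K : Type u} [Field k] [Field K] [Algebra k K]

lemma fin3 (t : Fin 3) : t = 0 ∨ t = 1 ∨ t = 2 := by
  revert t
  decide

/-- factor types -/
abbrev HH (n S : ℕ) := Fin n ⊕ (Fin n ⊕ (Fin S × Fin n))

lemma prodH {n S : ℕ} {E : Type*} [CommMonoid E] (v : HH n S → E) :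
    ∏ h, v h = (∏ i, v (Sum.inl i)) * ((∏ i, v (Sum.inr (Sum.inl i))) *
      ∏ a, v (Sum.inr (Sum.inr a))) := by
  rw [Fintype.prod_sum_type, Fintype.prod_sum_type]

/-- germs of `n` curves with multiplicative normal forms -/
structure MK (V : ValuationSubring K) (n : ℕ) where
  B : Fin n → K
  u : Fin n → K
  w : Fin n → K
  Φ : Fin n → MvPolynomial (Fin 2) k
  N' : Fin n → MvPolynomial (Fin 2) k
  D : Fin n → MvPolynomial (Fin 2) k
  N1 : Fin n → MvPolynomial (Fin 2) k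
  D1 : Fin n → MvPolynomial (Fin 2) k
  N2 : Fin n → ℕ → MvPolynomial (Fin 2) k
  D2 : Fin n → ℕ → MvPolynomial (Fin 2) k
  m : Fin n → ℤ
  ty : Fin n → Fin 3
  hG : ∀ i, KGerm V (B i) (u i) (w i) (Φ i) (N' i) (D i) (m i)
  lt : ∀ i, ty i = 2 → V.valuation (B i) < 1
  du : ∀ i, ty i = 2 → (u i)⁻¹ ∉ V
  e1 : ∀ i, ty i = 2 → 1 + B i = MvPolynomial.aeval ![u i, w i] (N1 i) /
    MvPolynomial.aeval ![u i, w i] (D1 i)
  e2 : ∀ i, ty i = 2 → ∀ f : ℕ, (f : k) ≠ 0 → (1 + B i) ^ f - 1 =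
    u i ^ m i * (MvPolynomial.aeval ![u i, w i] (N2 i f) / MvPolynomial.aeval ![u i, w i] (D2 i f))
  c3 : ∀ i, ty i ≠ 2 → N1 i = 1 ∧ D1 i = 1 ∧ ∀ f, N2 i f = 1 ∧ D2 i f = 1
  uN1 : ∀ i, UN V (u i) (w i) (N1 i)
  uD1 : ∀ i, UN V (u i) (w i) (D1 i)
  uN2 : ∀ i f, UN V (u i) (w i) (N2 i f)
  uD2 : ∀ i f, UN V (u i) (w i) (D2 i f)

namespace MK

variable {V : ValuationSubring K} {n S : ℕ} (M : MK (k := k) V n) (f : Fin S → Fin n → ℕ)

def gi : HH n S → Fin n := Sum.elim id (Sum.elim id Prod.snd)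

def N : HH n S → MvPolynomial (Fin 2) k :=
  Sum.elim M.N' (Sum.elim M.N1 (fun a => M.N2 a.2 (f a.1 a.2)))

def DD : HH n S → MvPolynomial (Fin 2) k :=
  Sum.elim M.D (Sum.elim M.D1 (fun a => M.D2 a.2 (f a.1 a.2)))

def gA (l : Fin S) (i : Fin n) : HH n S → ℕ :=
  Sum.elim 0 (Sum.elim (fun j => if j < i then f l j else 0) (fun a => if a = (l, i) then 1 else 0))

def gB (l : Fin S) : HH n S → ℕ :=
  Sum.elim (fun i => if M.ty i = 1 then f l i else 0)
    (Sum.elim (fun i => if M.ty i = 2 then f l i else 0) 0)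

lemma unN (h : HH n S) : UN V (M.u (gi h)) (M.w (gi h)) (M.N f h) := by
  rcases h with i | i | a
  · exact ⟨(M.hG i).hN0, (M.hG i).hNV⟩
  · exact M.uN1 i
  · exact M.uN2 _ _

lemma unD (h : HH n S) : UN V (M.u (gi h)) (M.w (gi h)) (M.DD f h) := by
  rcases h with i | i | a
  · exact ⟨(M.hG i).hD0, (M.hG i).hDV⟩
  · exact M.uD1 i
  · exact M.uD2 _ _

/-- value of a factor -/
noncomputable def v (h : HH n S) : K := MvPolynomial.aeval ![M.u (gi h), M.w (gi h)] (M.N f h) /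
  MvPolynomial.aeval ![M.u (gi h), M.w (gi h)] (M.DD f h)

variable (hV : ∀ c : k, algebraMap k K c ∈ V)

include hV in
lemma v_unit (o : HH n S → ℕ) : ∏ h, M.v f h ^ o h ≠ 0 ∧ (∏ h, M.v f h ^ o h)⁻¹ ∈ V := by
  have h0 : ∀ h, M.v f h ≠ 0 := fun h => div_ne_zero (M.unN f h).ne (M.unD f h).ne
  have h1 : ∀ h, (M.v f h)⁻¹ ∈ V := by
    intro h
    rw [v, inv_div, div_eq_mul_inv]
    refine mul_mem ?_ (M.unN f h).inv
    apply aeval_mem hV
    intro x
    fin_cases x
    · exact (M.hG _).huV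
    · exact (M.hG _).hwV
  refine ⟨Finset.prod_ne_zero_iff.2 fun h _ => pow_ne_zero _ (h0 h), ?_⟩
  rw [← Finset.prod_inv_distrib]
  refine prod_mem fun h _ => ?_
  rw [← inv_pow]
  exact pow_mem (h1 h) _

lemma v_inl (i : Fin n) : M.B i = M.u i ^ M.m i * M.v f (Sum.inl i) := (M.hG i).fac

lemma v_mid (i : Fin n) (h : M.ty i = 2) : 1 + M.B i = M.v f (Sum.inr (Sum.inl i)) := M.e1 i h

lemma v_inr (l : Fin S) (i : Fin n) (h : M.ty i = 2) (hf : (f l i : k) ≠ 0) :
    (1 + M.B i) ^ f l i - 1 = M.u i ^ M.m i * M.v f (Sum.inr (Sum.inr (l, i))) := M.e2 i h _ hf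

lemma prod_gA (l : Fin S) (i : Fin n) : ∏ h, M.v f h ^ gA f l i h =
    (∏ j with j < i, M.v f (Sum.inr (Sum.inl j)) ^ f l j) * M.v f (Sum.inr (Sum.inr (l, i))) := by
  rw [prodH]
  simp only [gA, Sum.elim_inl, Sum.elim_inr, Pi.zero_apply, pow_zero, Finset.prod_const_one, one_mul]
  congr 1
  · rw [Finset.prod_filter]
    refine Finset.prod_congr rfl fun j _ => ?_
    split_ifs <;> simp
  · rw [Finset.prod_eq_single (l, i)]
    · simp
    · intro b _ hb
      rw [if_neg hb, pow_zero]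
    · simp

lemma prod_gB (l : Fin S) : ∏ h, M.v f h ^ M.gB f l h =
    (∏ i, M.v f (Sum.inl i) ^ (if M.ty i = 1 then f l i else 0)) *
      ∏ i, M.v f (Sum.inr (Sum.inl i)) ^ (if M.ty i = 2 then f l i else 0) := by
  rw [prodH]
  simp only [gB, Sum.elim_inl, Sum.elim_inr, Pi.zero_apply, pow_zero, Finset.prod_const_one, mul_one]

include hV in
lemma val_B (i : Fin n) : V.valuation (M.B i) = V.valuation (M.u i ^ M.m i) := by
  have h1 := M.v_unit (S := 0) (fun l => l.elim0) hV (Pi.single (Sum.inl i) 1)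
  rw [Finset.prod_eq_single (Sum.inl i)] at h1
  · rw [Pi.single_eq_same, pow_one] at h1
    have h2 : M.v (S := 0) (fun l => l.elim0) (Sum.inl i) ∈ V := by
      rw [v, div_eq_mul_inv]
      refine mul_mem ?_ (M.hG i).hDV
      apply aeval_mem hV
      intro x
      fin_cases x
      · exact (M.hG _).huV
      · exact (M.hG _).hwV
    rw [M.v_inl (S := 0) (fun l => l.elim0) i, map_mul, val_one_of h1.1 h2 h1.2, mul_one]
  · intro b _ hb
    rw [Pi.single_eq_of_ne hb, pow_zero]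
  · simp

/-- reduced exponents -/
structure PV (p : ℕ) (η x : Fin S → K) (X : Fin n → K) (W : Finset (Fin S))
    (π : {l // l ∈ W} → Fin n) : Prop where
  hη0 : ∀ l, η l ≠ 0
  hx : ∀ l, x l = η l - 1
  hη1 : ∀ l : {l // l ∈ W}, M.ty (π l) = 2 → η l ≠ 1
  hX0 : ∀ i, M.ty i = 0 → X i = 1
  hX1 : ∀ i, M.ty i = 1 → X i = M.B i
  hX2 : ∀ i, M.ty i = 2 → X i = 1 + M.B i
  hηp : ∀ l, η l ^ p = ∏ i, X i ^ f l i
  hf0 : ∀ l i, M.ty i = 0 → f l i = 0
  hfk : ∀ l i, f l i ≠ 0 → (f l i : k) ≠ 0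
  h1 : ∀ l : {l // l ∈ W}, f l (π l) ≠ 0
  h2 : ∀ (l : {l // l ∈ W}) (l' : Fin S), l' ≠ l → f l' (π l) = 0
  h3 : ∀ l : {l // l ∈ W}, M.ty (π l) = 2 → ∀ i, f l i ≠ 0 → M.ty i = 2 ∧
    V.valuation (M.B i) ≤ V.valuation (M.B (π l))

variable {p : ℕ} {η x : Fin S → K} {X : Fin n → K} {W : Finset (Fin S)}
  {π : {l // l ∈ W} → Fin n}

/-- additive rows -/
abbrev JA (π : {l // l ∈ W} → Fin n) := {l : {l // l ∈ W} // M.ty (π l) = 2}

/-- multiplicative rows -/
abbrev JB (π : {l // l ∈ W} → Fin n) := {l : {l // l ∈ W} // M.ty (π l) = 1}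

lemma relA [CharP K p] [Fact p.Prime] (r : M.PV f p η x X W π) (l : M.JA π) :
    x l ^ p = ∑ i, algebraMap k K (if f l i = 0 then 0 else 1) *
      (M.u i ^ M.m i * ∏ h, M.v f h ^ gA f l i h) := by
  have hEK : ExpChar K p := ExpChar.prime Fact.out
  rw [r.hx, sub_pow_expChar, one_pow, r.hηp]
  have h1 : ∏ i, X i ^ f l i = ∏ i, (1 + (X i ^ f l i - 1)) := by
    refine Finset.prod_congr rfl fun i _ => ?_
    ring
  rw [h1, Finset.prod_one_add_ordered, add_sub_cancel_left]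
  refine Finset.sum_congr rfl fun i _ => ?_
  rw [prod_gA]
  by_cases h0 : f l i = 0
  · rw [if_pos h0, h0]
    simp
  rw [if_neg h0, map_one, one_mul]
  obtain ⟨ht, -⟩ := r.h3 l.1 l.2 i h0
  rw [r.hX2 i ht, M.v_inr f l i ht (r.hfk l i h0)]
  have h2 : ∏ j with j < i, (1 + (X j ^ f l j - 1)) =
      ∏ j with j < i, M.v f (Sum.inr (Sum.inl j)) ^ f l j := by
    refine Finset.prod_congr rfl fun j _ => ?_
    by_cases hj : f l j = 0
    · rw [hj]; simp
    · obtain ⟨hj2, -⟩ := r.h3 l.1 l.2 j hj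
      rw [r.hX2 j hj2, M.v_mid f j hj2]
      ring
  rw [h2]
  ring

/-- exponents of multiplicative rows -/
def fB (l : Fin S) (i : Fin n) : ℤ := if M.ty i = 1 then f l i * M.m i else 0

lemma relB (r : M.PV f p η x X W π) (l : Fin S) :
    η l ^ p = mon M.u (M.fB f l) * ∏ h, M.v f h ^ M.gB f l h := by
  rw [r.hηp, prod_gB]
  simp only [mon]
  rw [← Finset.prod_mul_distrib, ← Finset.prod_mul_distrib]
  refine Finset.prod_congr rfl fun i _ => ?_
  rcases fin3 (M.ty i) with h | h | h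
  · simp [fB, h, r.hX0 i h]
  · rw [r.hX1 i h, M.v_inl f i, mul_pow]
    simp only [fB, h, if_true]
    have e1 : (M.u i ^ M.m i) ^ f l i = M.u i ^ ((f l i : ℤ) * M.m i) := by
      rw [← zpow_natCast, ← zpow_mul, mul_comm]
    rw [e1]
    simp
  · rw [r.hX2 i h, M.v_mid f i h]
    simp [fB, h]

include hV in
theorem exists_rdat [CharP K p] [Fact p.Prime] (r : M.PV f p η x X W π) :
    ∃ q : RDat (k := k) V p n (M.JA π) (M.JB π) (HH n S), q.u = M.u ∧ q.w = M.w ∧
      (∀ l, q.η (Sum.inl l) = x l) ∧ ∀ l, q.η (Sum.inr l) = η l := by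
  have hne : ∀ (l : M.JA π) (l' : M.JB π), (l : Fin S) ≠ (l' : Fin S) := by
    intro l l' h
    have h1 : l.1 = l'.1 := Subtype.ext h
    have h2 := l.2
    rw [h1, l'.2] at h2
    exact absurd h2 (by decide)
  exact ⟨{
    u := M.u
    w := M.w
    Φ := M.Φ
    m := M.m
    gi := gi
    N := M.N f
    D := M.DD f
    η := Sum.elim (fun l => x l) (fun l => η l)
    a := fun l i => if f l i = 0 then 0 else 1
    gA := fun l i => gA f l i
    πA := fun l => π l
    f := fun l => M.fB f l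
    gB := fun l => M.gB f l
    πB := fun l => π l
    hu0 := fun i => (M.hG i).hu0
    huV := fun i => (M.hG i).huV
    hwV := fun i => (M.hG i).hwV
    hΦ := fun i => (M.hG i).hΦ
    hΦ0 := fun i => (M.hG i).hΦ0
    hΦV := fun i => (M.hG i).hΦV
    hD0 := fun h => (M.unD f h).ne
    hDV := fun h => (M.unD f h).inv
    hη := by
      rintro (l | l)
      · change x l ≠ 0
        rw [r.hx]
        exact sub_ne_zero.2 (r.hη1 l.1 l.2)
      · exact r.hη0 l
    hm := fun i => (M.hG i).hm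
    relA := fun l => M.relA f r l
    relB := fun l => M.relB f r l
    hUA := fun l => M.v_unit f hV _
    hUB := fun l => (M.v_unit f hV _).2
    ha1 := fun l => by
      have h1 := r.h1 l.1
      change (if f l (π l) = 0 then (0 : k) else 1) ≠ 0
      rw [if_neg h1]
      exact one_ne_zero
    ha2 := fun l l' h => by
      have h1 := r.h2 l.1 l' (fun h' => h (Subtype.ext (Subtype.ext h')))
      change (if f l' (π l) = 0 then (0 : k) else 1) = 0
      rw [if_pos h1]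
    ha3 := fun l i h => by
      rw [← M.val_B hV, ← M.val_B hV]
      exact (r.h3 l.1 l.2 i (fun h0 => h (if_pos h0))).2
    hb1 := fun l => by
      simp only [fB, l.2, if_true]
      push_cast
      exact mul_ne_zero (r.hfk _ _ (r.h1 l.1)) (M.hG _).hm
    hb2 := fun l l' h => by
      simp only [fB, l.2, if_true]
      rw [r.h2 l.1 l' (fun h' => h (Subtype.ext (Subtype.ext h')))]
      simp
    hab := fun l l' => by
      refine ⟨?_, ?_⟩
      · simp only [fB, l.2]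
        simp
      · rw [if_pos (r.h2 l'.1 l (hne l l'))]
    hdir := fun h => by
      rcases h with i | i | a
      · exact (M.hG i).dir
      · by_cases h : M.ty i = 2
        · exact Or.inl (M.du i h)
        · exact Or.inr ⟨(M.c3 i h).1, (M.c3 i h).2.1⟩
      · by_cases h : M.ty a.2 = 2
        · exact Or.inl (M.du _ h)
        · exact Or.inr ((M.c3 _ h).2.2 _) }, rfl, rfl, fun _ => rfl, fun _ => rfl⟩

end MK

end

end LP
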