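import Pool.Agent.helper90.LU.Perron

/-!
Row operations modulo `p` on systems of `p`-th roots of monomials.
-/

namespace LP

open LU

section

variable {K : Type*} [Field K] {n S : ℕ}

lemma mon_comp {T : ℕ} {x : Fin n → K} (hx : ∀ i, x i ≠ 0) (M : Fin T → Fin n → ℤ) (a : Fin T → ℤ) :
    ∏ s, mon x (M s) ^ a s = mon x (fun i => ∑ s, a s * M s i) := by
  simp only [mon]
  have h1 : ∀ s, (∏ l, x l ^ M s l) ^ a s = ∏ l, x l ^ (a s * M s l) := by
    intro s
    rw [← Finset.prod_zpow]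
    refine Finset.prod_congr rfl fun l _ => ?_
    rw [← _root_.zpow_mul, mul_comm]
  simp only [h1]
  rw [Finset.prod_comm]
  refine Finset.prod_congr rfl fun l _ => ?_
  induction (Finset.univ : Finset (Fin T)) using Finset.cons_induction with
  | empty => simp
  | cons i s hi ih => rw [Finset.prod_cons, Finset.sum_cons, zpow_add₀ (hx l), ih]

lemma lift_eq (p : ℕ) [Fact p.Prime] (z : ℤ) (c : ZMod p) (h : (z : ZMod p) = c) :
    ∃ q : ℤ, z = (c.val : ℤ) + p * q := by
  have h1 : ((c.val : ℤ) : ZMod p) = (z : ZMod p) := by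
    rw [h]
    push_cast
    rw [ZMod.natCast_zmod_val]
  rw [ZMod.intCast_eq_intCast_iff_dvd_sub] at h1
  obtain ⟨q, hq⟩ := h1
  exact ⟨q, by linarith⟩

theorem mul_reduce (p : ℕ) [hp : Fact p.Prime] {x : Fin n → K} (hx : ∀ i, x i ≠ 0)
    {y : Fin S → K} (hy0 : ∀ s, y s ≠ 0) (e : Fin S → Fin n → ℤ)
    (hy : ∀ s, y s ^ p = mon x (e s)) (act : Fin n → Prop) [DecidablePred act]
    (hact : ∀ i, ¬ act i → x i = 1) (P Q : Matrix (Fin S) (Fin S) (ZMod p)) (hQP : Q * P = 1)
    (α : Matrix (Fin S) (Fin n) (ZMod p)) (hα : ∀ s i, act i → α s i = (e s i : ZMod p)) :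
    ∃ η : Fin S → K, (∀ l, η l ≠ 0) ∧ (∀ l, η l ^ p = ∏ i, x i ^ ((P * α) l i).val) ∧
      ∀ M : Subfield K, (∀ i, x i ∈ M) → (∀ l, η l ∈ M) → ∀ s, y s ∈ M := by
  have hp0 : (p : ℤ) ≠ 0 := by exact_mod_cast hp.out.ne_zero
  -- lifted exponents
  have h1 : ∀ l i, ∃ q : ℤ, act i →
      ∑ s, ((P l s).val : ℤ) * e s i = (((P * α) l i).val : ℤ) + p * q := by
    intro l i
    by_cases hi : act i
    · obtain ⟨q, hq⟩ := lift_eq p (∑ s, ((P l s).val : ℤ) * e s i) ((P * α) l i) (by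
        rw [Matrix.mul_apply]
        push_cast
        refine Finset.sum_congr rfl fun s _ => ?_
        rw [ZMod.natCast_zmod_val, hα s i hi])
      exact ⟨q, fun _ => hq⟩
    · exact ⟨0, fun h => absurd h hi⟩
  choose q hq using h1
  have h2 : ∀ s t, ∃ r : ℤ, ∑ l, ((Q s l).val : ℤ) * (P l t).val =
      (if s = t then 1 else 0) + p * r := by
    intro s t
    obtain ⟨r, hr⟩ := lift_eq p (∑ l, ((Q s l).val : ℤ) * (P l t).val) ((1 : Matrix _ _ (ZMod p)) s t) (by
        rw [← hQP, Matrix.mul_apply]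
        push_cast
        refine Finset.sum_congr rfl fun s _ => ?_
        rw [ZMod.natCast_zmod_val, ZMod.natCast_zmod_val])
    refine ⟨r, ?_⟩
    rw [hr, Matrix.one_apply]
    congr 1
    split_ifs
    · have : Fact (1 < p) := ⟨hp.out.one_lt⟩
      rw [ZMod.val_one]
      rfl
    · simp
  choose r hr using h2
  set η0 : Fin S → K := fun l => mon y (fun s => ((P l s).val : ℤ)) with hη0
  have hη0p : ∀ l, η0 l ^ p = (∏ i, x i ^ ((P * α) l i).val) * (mon x (q l)) ^ p := by
    intro l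
    have e1 : η0 l ^ p = ∏ s, mon x (e s) ^ ((P l s).val : ℤ) := by
      simp only [hη0, mon]
      rw [← Finset.prod_pow]
      refine Finset.prod_congr rfl fun s _ => ?_
      rw [← zpow_natCast, ← _root_.zpow_mul, mul_comm, _root_.zpow_mul, zpow_natCast (y s) p, hy s]
      rfl
    rw [e1, mon_comp hx]
    simp only [mon]
    rw [← Finset.prod_pow, ← Finset.prod_mul_distrib]
    refine Finset.prod_congr rfl fun i _ => ?_
    by_cases hi : act i
    · rw [hq l i hi, zpow_add₀ (hx i), zpow_natCast, mul_comm (p : ℤ), _root_.zpow_mul, zpow_natCast]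
    · rw [hact i hi]
      simp
  refine ⟨fun l => η0 l * (mon x (q l))⁻¹, fun l => mul_ne_zero (mon_ne_zero hy0 _)
    (inv_ne_zero (mon_ne_zero hx _)), fun l => ?_, ?_⟩
  · rw [mul_pow, hη0p, inv_pow, mul_assoc, mul_inv_cancel₀ (pow_ne_zero _ (mon_ne_zero hx _)), mul_one]
  · intro M hxM hηM s
    have hmon : ∀ a : Fin n → ℤ, mon x a ∈ M := fun a => prod_mem fun i _ => zpow_mem (hxM i) _
    have hη0M : ∀ l, η0 l ∈ M := by
      intro l
      have h3 := mul_mem (hηM l) (hmon (q l))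
      rwa [mul_assoc, inv_mul_cancel₀ (mon_ne_zero hx _), mul_one] at h3
    have hyp : ∀ t, y t ^ p ∈ M := fun t => by rw [hy t]; exact hmon _
    have e1 : ∏ l, η0 l ^ ((Q s l).val : ℤ) = y s * ∏ t, (y t ^ p) ^ r s t := by
      have e2 := mon_comp hy0 (fun l t => ((P l t).val : ℤ)) (fun l => ((Q s l).val : ℤ))
      rw [e2]
      simp only [hr]
      simp only [mon]
      have e3 : ∀ t, y t ^ ((if s = t then 1 else 0) + p * r s t : ℤ) =
          (if s = t then y t else 1) * (y t ^ p) ^ r s t := by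
        intro t
        rw [zpow_add₀ (hy0 t), _root_.zpow_mul, zpow_natCast]
        split_ifs <;> simp
      simp only [e3, Finset.prod_mul_distrib]
      simp
    have h4 : ∏ t, (y t ^ p) ^ r s t ∈ M := prod_mem fun t _ => zpow_mem (hyp t) _
    have h5 : ∏ l, η0 l ^ ((Q s l).val : ℤ) ∈ M := prod_mem fun l _ => zpow_mem (hη0M l) _
    rw [e1] at h5
    have h6 : ∏ t, (y t ^ p) ^ r s t ≠ 0 := Finset.prod_ne_zero_iff.2 fun t _ =>
      zpow_ne_zero _ (pow_ne_zero _ (hy0 t))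
    have h7 := mul_mem h5 (inv_mem h4)
    rwa [mul_assoc, mul_inv_cancel₀ h6, mul_one] at h7

end

end LP
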