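import Pool.Agent.helper90.LP.AddP
import Pool.Agent.helper90.LP.MulK
import Pool.Agent.helper90.LP.MulRed

/-!
Local uniformization of fields generated by `p`-th roots of products of functions on curves.
-/

namespace LP

open LU LT LG

universe u

section

variable {k K : Type u} [Field k] [Field K] [Algebra k K]

lemma UN.coe {V : ValuationSubring K} {F : IntermediateField k K} {u w : F}
    {N : MvPolynomial (Fin 2) k} (h : UN (trc V F) u w N) : UN V (u : K) (w : K) N := by
  refine ⟨?_, ?_⟩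
  · rw [← coe_aeval']
    intro h0
    exact h.ne (Subtype.ext h0)
  · rw [← coe_aeval']
    exact h.inv

lemma prod_ne_one {n : ℕ} {B : Fin n → K} (h : AlgebraicIndependent k B) (f : Fin n → ℕ)
    {i0 : Fin n} (hf : f i0 ≠ 0) : ∏ i, (1 + B i) ^ f i ≠ 1 := by
  intro h1
  have h2 : MvPolynomial.aeval B (∏ i, (1 + MvPolynomial.X i) ^ f i - 1 : MvPolynomial (Fin n) k) = 0 := by
    rw [map_sub, map_prod, map_one, ← h1]
    simp
  have h3 := h.eq_zero_of_aeval_eq_zero _ h2
  have h4 := congrArg (MvPolynomial.eval (fun _ : Fin n => (-1 : k))) h3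
  rw [map_sub, map_prod, map_one, map_zero] at h4
  rw [Finset.prod_eq_zero (Finset.mem_univ i0)] at h4
  · simp at h4
  · simp [hf]

variable [PerfectField k] (p : ℕ) [hp : Fact p.Prime] [CharP k p]

theorem lp_mul {n S L : ℕ} (F : Fin n → IntermediateField k K)
    (hfg : ∀ i, Algebra.EssFiniteType k (F i)) (htr : ∀ i, Algebra.trdeg k (F i) = 1)
    (g : ∀ i, F i) (hg0 : ∀ i, g i ≠ 0) (y : Fin S → K) (hy0 : ∀ s, y s ≠ 0)
    (hy : ∀ s, ∃ (c : k) (e : Fin n → ℤ), y s ^ p = algebraMap k K c * ∏ i, (g i : K) ^ e i)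
    (ζ : Fin L → K) (mζ : Fin L → ℕ) (hζ : ∀ l, ζ l ≠ 0) (hmζ : ∀ l, (mζ l : k) ≠ 0)
    (hk : ∀ l, ∃ h : ∀ i, F i, ζ l ^ mζ l = ∏ i, (h i : K))
    (hgen : (⨆ i, F i) ⊔ IntermediateField.adjoin k (Set.range y ∪ Set.range ζ) = ⊤)
    (hn : Algebra.trdeg k K = n) (V : ValuationSubring K)
    (hV : ∀ c : k, algebraMap k K c ∈ V) : Uniformizable k V := by
  classical
  have hp0 : p ≠ 0 := hp.out.ne_zero
  have hCK : CharP K p := charP_of_injective_algebraMap (algebraMap k K).injective p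
  have hEK : ExpChar K p := ExpChar.prime hp.out
  have hroot : ∀ c : k, ∃ d, d ^ p = c := root_of_perfect (k := k) p
  choose rt hrt using hroot
  -- the germs
  choose A B u w Φ N' D N1 D1 N2 D2 m ty hL using fun i =>
    exists_mloc p (hfg i) (htr i) (trc V (F i)) (fun c => hV c) (g i) (hg0 i)
  have hG := fun i => (hL i).hT.toK
  -- independence
  have hF : ∀ i, F i ≤ ⨆ i, F i := le_iSup F
  have hZ : ∀ x ∈ Set.range y ∪ Set.range ζ, ∃ m : ℕ, 0 < m ∧ x ^ m ∈ ⨆ i, F i := by
    rintro _ (⟨s, rfl⟩ | ⟨l, rfl⟩)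
    · refine ⟨p, hp.out.pos, ?_⟩
      obtain ⟨c, e, h⟩ := hy s
      rw [h]
      exact mul_mem ((⨆ i, F i).algebraMap_mem c) (prod_mem fun i _ => zpow_mem (hF i (g i).2) _)
    · refine ⟨mζ l, Nat.pos_of_ne_zero fun h0 => hmζ l (by rw [h0]; simp), ?_⟩
      obtain ⟨h, hh⟩ := hk l
      rw [hh]
      exact prod_mem fun i _ => hF i (h i).2
  have hindB := indep_curves F B (fun i => Curve.alg_of_tr (htr i) (hL i).hB) hZ hgen hn
  have hindu := indep_curves F u (fun i => (hL i).hT.ger.alg) hZ hgen hn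
  -- normalised functions
  obtain ⟨x, hx1, hx2, hx3⟩ : ∃ x : Fin n → K, (∀ i, ty i = 0 → x i = 1) ∧
      (∀ i, ty i = 1 → x i = B i) ∧ (∀ i, ty i = 2 → x i = 1 + B i) := by
    refine ⟨fun i => if ty i = 0 then 1 else if ty i = 1 then (B i : K) else 1 + (B i : K),
      fun i h => by simp [h], fun i h => by simp [h], fun i h => by simp [h]⟩
  have hgx : ∀ i, (g i : K) = (A i : K) ^ p * x i := by
    intro i
    rcases fin3 (ty i) with h | h | h
    · rw [hx1 i h, mul_one]
      exact congrArg (Subtype.val : F i → K) ((hL i).c0 h)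
    · rw [hx2 i h]
      exact congrArg (Subtype.val : F i → K) ((hL i).c1 h)
    · rw [hx3 i h]
      exact congrArg (Subtype.val : F i → K) ((hL i).c2 h).1
  have hxF : ∀ i, x i ∈ F i := by
    intro i
    rcases fin3 (ty i) with h | h | h
    · rw [hx1 i h]; exact one_mem _
    · rw [hx2 i h]; exact (B i).2
    · rw [hx3 i h]; exact add_mem (one_mem _) (B i).2
  have hgK0 : ∀ i, (g i : K) ≠ 0 := fun i h => hg0 i (Subtype.ext h)
  have hx0 : ∀ i, x i ≠ 0 := fun i h => hgK0 i (by rw [hgx, h, mul_zero])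
  have hA0 : ∀ i, (A i : K) ≠ 0 := fun i h => (hL i).hA (Subtype.ext h)
  choose c e hce using hy
  let κ := algebraMap k K
  have hc0 : ∀ s, c s ≠ 0 := by
    intro s h
    have h1 := hce s
    rw [h, map_zero, zero_mul] at h1
    exact pow_ne_zero _ (hy0 s) h1
  have hrt0 : ∀ s, κ (rt (c s)) ≠ 0 := by
    intro s h
    have h1 : κ (rt (c s)) ^ p = κ (c s) := by rw [← map_pow, hrt]
    rw [h, zero_pow hp0] at h1
    exact (map_ne_zero κ).2 (hc0 s) h1.symm
  obtain ⟨y', hyy⟩ : ∃ y' : Fin S → K, ∀ s, y s = y' s * (κ (rt (c s)) * mon (fun i => (A i : K)) (e s)) := by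
    refine ⟨fun s => y s * (κ (rt (c s)) * mon (fun i => (A i : K)) (e s))⁻¹, fun s => ?_⟩
    rw [mul_assoc, inv_mul_cancel₀ (mul_ne_zero (hrt0 s) (mon_ne_zero hA0 _)), mul_one]
  have hy'0 : ∀ s, y' s ≠ 0 := by
    intro s h
    apply hy0 s
    rw [hyy, h, zero_mul]
  have hy' : ∀ s, y' s ^ p = mon x (e s) := by
    intro s
    have h1 := hce s
    rw [hyy, mul_pow, mul_pow, ← map_pow, hrt] at h1
    have h2 : ∏ i, (g i : K) ^ e s i = mon x (e s) * mon (fun i => (A i : K)) (e s) ^ p := by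
      simp only [mon]
      rw [← Finset.prod_pow, ← Finset.prod_mul_distrib]
      refine Finset.prod_congr rfl fun i _ => ?_
      rw [hgx, mul_zpow, mul_comm]
      congr 1
      rw [← zpow_natCast, ← zpow_natCast, ← zpow_mul, ← zpow_mul, mul_comm]
    rw [h2] at h1
    have h3 : κ (c s) ≠ 0 := (map_ne_zero κ).2 (hc0 s)
    have h4 : mon (fun i => (A i : K)) (e s) ^ p ≠ 0 := pow_ne_zero _ (mon_ne_zero hA0 _)
    have h5 : y' s ^ p * (κ (c s) * mon (fun i => (A i : K)) (e s) ^ p) =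
        mon x (e s) * (κ (c s) * mon (fun i => (A i : K)) (e s) ^ p) := by
      rw [h1]
      change κ (c s) * _ = _
      ring
    exact mul_right_cancel₀ (mul_ne_zero h3 h4) h5
  -- echelon form
  obtain ⟨wt, hw1, hw2⟩ : ∃ wt : Fin n → V.ValueGroup, (∀ i, ty i = 1 → wt i = 1) ∧
      (∀ i, ty i = 2 → wt i = V.valuation (B i : K)) := by
    refine ⟨fun i => if ty i = 1 then 1 else V.valuation (B i : K),
      fun i h => by simp [h], fun i h => by simp [h]⟩
  obtain ⟨α, hα0, hα1⟩ : ∃ α : Matrix (Fin S) (Fin n) (ZMod p), (∀ s i, ty i = 0 → α s i = 0) ∧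
      (∀ s i, ty i ≠ 0 → α s i = (e s i : ZMod p)) := by
    refine ⟨fun s i => if ty i = 0 then 0 else (e s i : ZMod p), fun s i h => by simp [h],
      fun s i h => by simp [h]⟩
  obtain ⟨P, Q, W, π, hQP, hπ, hW⟩ := ech_gen α (fun i i' => wt i ≤ wt i') (by
      intro T hT
      obtain ⟨i, hi, him⟩ := Finset.exists_max_image T wt hT
      exact ⟨i, hi, fun i' hi' => him i' hi'⟩)
  obtain ⟨η, hη0, hηp, hback⟩ := mul_reduce p hx0 hy'0 e hy' (fun i => ty i ≠ 0)
    (fun i h => hx1 i (not_not.1 h)) P Q hQP α hα1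
  set f : Fin S → Fin n → ℕ := fun l i => ((P * α) l i).val with hf
  have hf0 : ∀ l i, (P * α) l i = 0 → f l i = 0 := by
    intro l i h
    simp only [hf, h, ZMod.val_zero]
  have hf0' : ∀ l i, (P * α) l i ≠ 0 → f l i ≠ 0 := by
    intro l i h h1
    exact h ((ZMod.val_eq_zero _).1 h1)
  have hfk : ∀ l i, f l i ≠ 0 → (f l i : k) ≠ 0 := by
    intro l i h h1
    rw [CharP.cast_eq_zero_iff k p] at h1
    have h2 := Nat.le_of_dvd (Nat.pos_of_ne_zero h) h1
    have h3 : f l i < p := ZMod.val_lt _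
    omega
  have hPα0 : ∀ l i, ty i = 0 → (P * α) l i = 0 := by
    intro l i h
    rw [Matrix.mul_apply]
    exact Finset.sum_eq_zero fun s _ => by rw [hα0 s i h, mul_zero]
  have hπty : ∀ l : {l // l ∈ W}, ty (π l) ≠ 0 := fun l h => (hπ l).1 (hPα0 _ _ h)
  -- the data in `K`
  have hB0 : ∀ i, B i ≠ 0 := fun i h => (hL i).hB (by rw [h]; exact isAlgebraic_zero)
  have hlt : ∀ i, ty i = 2 → V.valuation (B i : K) < 1 := by
    intro i h
    exact lt_one_of_inv (inv_of_lt_one (hB0 i) ((hL i).c2 h).2.1 :)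
  let M : MK (k := k) V n :=
    { B := fun i => B i
      u := fun i => u i
      w := fun i => w i
      Φ := Φ
      N' := N'
      D := D
      N1 := N1
      D1 := D1
      N2 := N2
      D2 := D2
      m := m
      ty := ty
      hG := fun i => by
        have h1 := hG i
        rw [map_zero, sub_zero] at h1
        exact h1
      lt := hlt
      du := fun i h => ((hL i).c2 h).2.2.1
      e1 := fun i h => by
        have h1 := congrArg (Subtype.val : F i → K) ((hL i).c2 h).2.2.2.1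
        rw [← coe_aeval', ← coe_aeval']
        exact h1
      e2 := fun i h f hf => by
        have h1 := congrArg (Subtype.val : F i → K) (((hL i).c2 h).2.2.2.2 f hf)
        rw [← coe_aeval', ← coe_aeval']
        exact h1
      c3 := fun i => (hL i).c3
      uN1 := fun i => (hL i).uN1.coe
      uD1 := fun i => (hL i).uD1.coe
      uN2 := fun i f => ((hL i).uN2 f).coe
      uD2 := fun i f => ((hL i).uD2 f).coe }
  have h3 : ∀ l : {l // l ∈ W}, ty (π l) = 2 → ∀ i, f l i ≠ 0 → ty i = 2 ∧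
      V.valuation (B i : K) ≤ V.valuation (B (π l) : K) := by
    intro l hl i hi
    have h1 : (P * α) l i ≠ 0 := fun h => hi (hf0 _ _ h)
    have h2 := (hπ l).2.2 i h1
    rw [hw2 _ hl] at h2
    rcases fin3 (ty i) with h | h | h
    · exact absurd (hPα0 _ _ h) h1
    · rw [hw1 i h] at h2
      exact absurd (hlt _ hl) (not_lt.2 h2)
    · rw [hw2 i h] at h2
      exact ⟨h, h2⟩
  have hPV : M.PV f p η (fun l => η l - 1) x W π :=
    { hη0 := hη0
      hx := fun _ => rfl
      hη1 := by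
        intro l hl h1
        have h2 := hηp l
        rw [h1, one_pow] at h2
        apply prod_ne_one hindB (f l) (hf0' _ _ (hπ l).1)
        refine Eq.trans (Finset.prod_congr rfl fun i _ => ?_) h2.symm
        change _ = x i ^ f l i
        by_cases hi : f l i = 0
        · rw [hi, pow_zero, pow_zero]
        · rw [hx3 i (h3 l hl i hi).1]
      hX0 := hx1
      hX1 := hx2
      hX2 := hx3
      hηp := hηp
      hf0 := fun l i h => hf0 _ _ (hPα0 l i h)
      hfk := hfk
      h1 := fun l => hf0' _ _ (hπ l).1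
      h2 := fun l l' h => hf0 _ _ ((hπ l).2.1 l' h)
      h3 := h3 }
  obtain ⟨r, hru, hrw, hrA, hrB⟩ := M.exists_rdat f hV hPV
  obtain ⟨q, hq⟩ := exists_kum (r.toG hV) F (fun i => i) u w Φ
    (fun i => (hL i).hT.ger) (fun i => congrFun hru i) (fun i => congrFun hrw i) ζ mζ hζ hmζ hk
  have hindr : AlgebraicIndependent k (fun j => (q.kum hV).u (id j)) := by
    have e : (fun j => (q.kum hV).u (id j)) = fun i => (u i : K) := by
      funext i
      exact congrFun hru i
    rw [e]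
    exact hindu
  refine LG.uniformizable_of_gdat (q.kum hV) ?_ hV (id : Fin n → Fin n) hindr
    (q.kum_alg hV _ (r.algCond hV hp.out.pos))
  set L0 := IntermediateField.adjoin k (Set.range (q.kum hV).u ∪ Set.range (q.kum hV).w ∪
    Set.range (q.kum hV).x) with hL0
  have hu : ∀ i, (u i : K) ∈ L0 := fun i => by
    have h1 : r.u i = (u i : K) := congrFun hru i
    rw [← h1]
    exact IntermediateField.subset_adjoin _ _ (Or.inl (Or.inl ⟨i, rfl⟩))
  have hw : ∀ i, (w i : K) ∈ L0 := fun i => by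
    have h1 : r.w i = (w i : K) := congrFun hrw i
    rw [← h1]
    exact IntermediateField.subset_adjoin _ _ (Or.inl (Or.inr ⟨i, rfl⟩))
  have hxx : ∀ l, r.zf l ∈ L0 := fun l =>
    IntermediateField.subset_adjoin _ _ (Or.inr ⟨Sum.inl l, rfl⟩)
  have hzf : ∀ l, q.zf l ∈ L0 := fun l =>
    IntermediateField.subset_adjoin _ _ (Or.inr ⟨Sum.inr l, rfl⟩)
  have hFM : ∀ i, F i ≤ L0 := fun i => gen_field (hL i).hT.gen (hu i) (hw i)
  have hηM : ∀ l, η l ∈ L0 := by
    intro l
    by_cases hl : l ∈ W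
    · rcases fin3 (ty (π ⟨l, hl⟩)) with h | h | h
      · exact absurd h (hπty _)
      · have h1 := hrB ⟨⟨l, hl⟩, h⟩
        have h2 := r.zf_pow (Sum.inr ⟨⟨l, hl⟩, h⟩)
        have h3 : η l = r.zf (Sum.inr ⟨⟨l, hl⟩, h⟩) ^ r.sg (Sum.inr ⟨⟨l, hl⟩, h⟩) :=
          h1.symm.trans h2.symm
        rw [h3]
        exact zpow_mem (hxx _) _
      · have h1 := hrA ⟨⟨l, hl⟩, h⟩
        have h2 := r.zf_pow (Sum.inl ⟨⟨l, hl⟩, h⟩)
        have h3 : η l - 1 = r.zf (Sum.inl ⟨⟨l, hl⟩, h⟩) ^ r.sg (Sum.inl ⟨⟨l, hl⟩, h⟩) :=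
          h1.symm.trans h2.symm
        have h4 : η l - 1 ∈ L0 := by
          rw [h3]
          exact zpow_mem (hxx _) _
        have h5 := add_mem h4 (one_mem L0)
        rwa [sub_add_cancel] at h5
    · have h1 := hηp l
      have h2 : ∀ i, ((P * α) l i).val = 0 := fun i => hf0 _ _ (hW l hl i)
      simp only [h2, pow_zero, Finset.prod_const_one] at h1
      have h3 : η l = 1 := by
        apply frobenius_inj K p
        change η l ^ p = 1 ^ p
        rw [h1, one_pow]
      rw [h3]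
      exact one_mem L0
  rw [eq_top_iff, ← hgen]
  refine sup_le (iSup_le hFM) ?_
  rw [IntermediateField.adjoin_le_iff]
  rintro _ (⟨s, rfl⟩ | ⟨l, rfl⟩)
  · rw [hyy s]
    refine mul_mem ?_ (mul_mem (L0.algebraMap_mem _) ?_)
    · exact hback L0.toSubfield (fun i => hFM i (hxF i)) hηM s
    · exact prod_mem fun i _ => zpow_mem (hFM i (A i).2) _
  · rw [← hq, ← q.zf_pow l]
    exact zpow_mem (hzf l) _

end

end LP
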