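import Pool.Agent.helper90.LP.MulP
import Pool.Agent.helper90.LT.KSet

/-!
Local uniformization of fields generated by `p`-th roots of sums or products of functions on
curves: versions for finite sets.
-/

namespace LP

open LU LT

universe u

variable {k K : Type u} [Field k] [Field K] [Algebra k K]

/-- enumeration of the nonzero elements of a finite set -/
lemma enum_ne (Y : Finset K) : ∃ (S : ℕ) (y : Fin S → K), (∀ s, y s ∈ Y) ∧ (∀ s, y s ≠ 0) ∧
    IntermediateField.adjoin k (Set.range y) = IntermediateField.adjoin k (Y : Set K) := by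
  classical
  let Z' : Finset K := Y.filter (· ≠ 0)
  let e := Z'.equivFin
  have hmem : ∀ l, ((e.symm l : Z') : K) ∈ Y ∧ ((e.symm l : Z') : K) ≠ 0 := fun l =>
    Finset.mem_filter.1 (e.symm l).2
  refine ⟨Z'.card, fun l => (e.symm l : Z'), fun l => (hmem l).1, fun l => (hmem l).2, ?_⟩
  apply le_antisymm
  · rw [IntermediateField.adjoin_le_iff]
    rintro _ ⟨l, rfl⟩
    exact IntermediateField.subset_adjoin _ _ (hmem l).1
  · rw [IntermediateField.adjoin_le_iff]
    intro x hx
    by_cases h0 : x = 0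
    · rw [h0]; exact zero_mem _
    · have hx' : x ∈ Z' := Finset.mem_filter.2 ⟨hx, h0⟩
      refine IntermediateField.subset_adjoin _ _ ⟨e ⟨x, hx'⟩, ?_⟩
      simp

variable [PerfectField k] (p : ℕ) [hp : Fact p.Prime] [CharP k p]

theorem lp_set {n : ℕ} (F : Fin n → IntermediateField k K) (hfg : ∀ i, (F i).FG)
    (htr : ∀ i, Algebra.trdeg k (F i) = 1) (g : ∀ i, F i) (Y Z : Finset K)
    (hY : (∀ y ∈ Y, y ^ p ∈ Submodule.span k (insert 1 (Set.range fun i => (g i : K)))) ∨
      (∀ y ∈ Y, ∃ (c : k) (e : Fin n → ℤ), y ^ p = algebraMap k K c * ∏ i, (g i : K) ^ e i))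
    (hZ : ∀ x ∈ Z, ∃ (m : ℕ) (h : ∀ i, F i), (m : k) ≠ 0 ∧ x ^ m = ∏ i, (h i : K))
    (hgen : (⨆ i, F i) ⊔ IntermediateField.adjoin k ((Y : Set K) ∪ Z) = ⊤)
    (hn : Algebra.trdeg k K = n) (V : ValuationSubring K)
    (hV : ∀ c : k, algebraMap k K c ∈ V) : Uniformizable k V := by
  classical
  obtain ⟨L, ζ, m, h1, h2, h3, h4⟩ := enum_kummer F Z hZ
  obtain ⟨S, y, h5, h6, h7⟩ := enum_ne (k := k) Y
  have hgen' : (⨆ i, F i) ⊔ IntermediateField.adjoin k (Set.range y ∪ Set.range ζ) = ⊤ := by
    rw [← hgen, IntermediateField.adjoin_union, IntermediateField.adjoin_union, h4, h7]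
  have hE : ∀ i, Algebra.EssFiniteType k (F i) := fun i => IntermediateField.essFiniteType_iff.2 (hfg i)
  rcases hY with hY | hY
  · exact lp_add p F hE htr g y (fun s => hY _ (h5 s)) ζ m h1 h2 h3 hgen' hn V hV
  · refine lp_mul p F hE htr (fun i => if g i = 0 then 1 else g i) ?_ y h6 ?_ ζ m h1 h2 h3 hgen'
      hn V hV
    · intro i
      by_cases h : g i = 0
      · rw [if_pos h]; exact one_ne_zero
      · rw [if_neg h]; exact h
    · intro s
      obtain ⟨c, e, he⟩ := hY _ (h5 s)
      refine ⟨c, e, he.trans ?_⟩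
      congr 1
      have h8 : ∏ i, (g i : K) ^ e i ≠ 0 := by
        intro h0
        rw [h0, mul_zero] at he
        exact pow_ne_zero _ (h6 s) he
      rw [Finset.prod_ne_zero_iff] at h8
      refine Finset.prod_congr rfl fun i hi => ?_
      by_cases h : g i = 0
      · rw [if_pos h]
        have h9 := h8 i hi
        by_cases he0 : e i = 0
        · rw [he0, zpow_zero, zpow_zero]
        · exfalso
          apply h9
          rw [h]
          exact zero_zpow _ he0
      · rw [if_neg h]

end LP
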